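import Pool.Graph.R_pool_sql_team_seeded_3997aac3.Q148.CG.Alg

set_option autoImplicit false

/-! # Two independent ideal classes of order three: algebra -/

namespace Pool.Agent.H82.CR

open NumberField

variable {K : Type*} [Field K] [NumberField K]

lemma ideal_pow_inj {I J : Ideal (𝓞 K)} (h : I ^ 3 = J ^ 3) : I = J := by
  have h1 : I ∣ J := (UniqueFactorizationMonoid.pow_dvd_pow_iff_dvd (R := Ideal (𝓞 K))
    (n := 3) (by norm_num)).1 (dvd_of_eq h)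
  have h2 : J ∣ I := (UniqueFactorizationMonoid.pow_dvd_pow_iff_dvd (R := Ideal (𝓞 K))
    (n := 3) (by norm_num)).1 (dvd_of_eq h.symm)
  exact dvd_antisymm h1 h2

/-- the elements `(A ± B s) / 2` -/
lemma exists_el (d : ℕ) (s : K) (hs : s ^ 2 = -(d : K)) (A B k : ℤ)
    (h : A ^ 2 + d * B ^ 2 = 4 * k) : ∃ x y : 𝓞 K, (x : K) = ((A : ℚ) / 2 : ℚ) + ((B : ℚ) / 2 : ℚ) * s ∧
      (y : K) = ((A : ℚ) / 2 : ℚ) + ((-B : ℚ) / 2 : ℚ) * s ∧ x * y = (k : 𝓞 K) ∧ x + y = (A : 𝓞 K) := by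
  have hs' : s * s = -(d : K) := by rw [← sq]; exact hs
  have key : ∀ B : ℤ, A ^ 2 + d * B ^ 2 = 4 * k →
      IsIntegral ℤ ((((A : ℚ) / 2 : ℚ) : K) + (((B : ℚ) / 2 : ℚ) : K) * s) := by
    intro B hB
    have hB' : (A : K) ^ 2 + d * (B : K) ^ 2 = 4 * k := by exact_mod_cast hB
    refine ⟨Polynomial.X ^ 2 + Polynomial.C (-A) * Polynomial.X + Polynomial.C k, ?_, ?_⟩
    · monicity!
    · simp only [Polynomial.eval₂_add, Polynomial.eval₂_mul, Polynomial.eval₂_pow,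
        Polynomial.eval₂_X, Polynomial.eval₂_C]
      push_cast
      simp only [map_neg, eq_intCast]
      linear_combination (B : K) ^ 2 / 4 * hs - (1 / 4) * hB'
  have h' : A ^ 2 + d * (-B) ^ 2 = 4 * k := by rw [← h]; ring
  have hk : (A : K) ^ 2 + d * (B : K) ^ 2 = 4 * k := by exact_mod_cast h
  refine ⟨⟨_, key B h⟩, ⟨_, key (-B) h'⟩, rfl, ?_, ?_, ?_⟩
  · push_cast; rfl
  · apply RingOfIntegers.coe_injective
    simp only [map_mul, map_intCast]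
    change ((((A : ℚ) / 2 : ℚ) : K) + (((B : ℚ) / 2 : ℚ) : K) * s) *
      ((((A : ℚ) / 2 : ℚ) : K) + ((((-B : ℤ) : ℚ) / 2 : ℚ) : K) * s) = (k : K)
    push_cast
    linear_combination (-(B : K) ^ 2 / 4) * hs + (1 / 4) * hk
  · apply RingOfIntegers.coe_injective
    simp only [map_add, map_intCast]
    change ((((A : ℚ) / 2 : ℚ) : K) + (((B : ℚ) / 2 : ℚ) : K) * s) +
      ((((A : ℚ) / 2 : ℚ) : K) + ((((-B : ℤ) : ℚ) / 2 : ℚ) : K) * s) = (A : K)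
    push_cast
    ring

/-- cube roots of principal ideals -/
lemma exists_cube (x y : 𝓞 K) (A : ℤ) (k : ℕ) (hk : 1 < k) (hxy : x * y = (k : 𝓞 K) ^ 3)
    (ht : x + y = (A : 𝓞 K)) (hc : IsCoprime A (k : ℤ)) :
    ∃ I J : Ideal (𝓞 K), Ideal.span {x} = I ^ 3 ∧ Ideal.span {y} = J ^ 3 ∧
      I * J = Ideal.span {(k : 𝓞 K)} ∧ IsCoprime (Ideal.span {x}) (Ideal.span {y}) := by
  have hcop : IsCoprime x y := by
    have h4 : IsCoprime A ((k : ℤ) ^ 3) := hc.pow_right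
    obtain ⟨a, b, hab⟩ := h4
    refine ⟨(a : 𝓞 K) + b * y, a, ?_⟩
    have h5 : ((a * A + b * (k : ℤ) ^ 3 : ℤ) : 𝓞 K) = 1 := by
      rw [hab]; simp
    push_cast at h5
    linear_combination h5 + (a : 𝓞 K) * ht + (b : 𝓞 K) * hxy
  have hII : Ideal.span {x} * Ideal.span {y} = (Ideal.span {(k : 𝓞 K)}) ^ 3 := by
    rw [Ideal.span_singleton_mul_span_singleton, hxy, Ideal.span_singleton_pow]
  have hIc : IsCoprime (Ideal.span {x}) (Ideal.span {y}) := by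
    rw [Ideal.isCoprime_span_singleton_iff]
    exact hcop
  obtain ⟨I, hI⟩ := exists_eq_pow_of_mul_eq_pow_of_coprime hIc hII
  have hII' : Ideal.span {y} * Ideal.span {x} = (Ideal.span {(k : 𝓞 K)}) ^ 3 := by
    rw [mul_comm]; exact hII
  obtain ⟨J, hJ⟩ := exists_eq_pow_of_mul_eq_pow_of_coprime hIc.symm hII'
  refine ⟨I, J, hI, hJ, ?_, hIc⟩
  apply ideal_pow_inj
  rw [mul_pow, ← hI, ← hJ, hII]

/-- the cube root is not principal if its norm is small -/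
lemma not_principal (h2 : Module.finrank ℚ K = 2) (d : ℕ) (hd : Squarefree d) (s : K)
    (hs : s ^ 2 = -(d : K)) (x y : 𝓞 K) (A B : ℤ) (k : ℕ) (hk : 1 < k)
    (hx : (x : K) = ((A : ℚ) / 2 : ℚ) + ((B : ℚ) / 2 : ℚ) * s)
    (hAB : A ^ 2 + d * B ^ 2 = 4 * (k : ℤ) ^ 3) (hkd : 4 * k < d)
    (I J : Ideal (𝓞 K)) (hI : Ideal.span {x} = I ^ 3) (hJ : Ideal.span {y} = J ^ 3)
    (hIJ : I * J = Ideal.span {(k : 𝓞 K)})
    (hc : IsCoprime (Ideal.span {x}) (Ideal.span {y})) : ¬ I.IsPrincipal := by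
  rintro ⟨⟨β, hβ⟩⟩
  have hβ' : I = Ideal.span {β} := hβ
  have hd1 : 1 ≤ d := Nat.one_le_iff_ne_zero.mpr hd.ne_zero
  have hnx : Ideal.absNorm (Ideal.span {x}) = k ^ 3 := by
    have h3 := (Pool.Agent.Q148.CG.exists_conj h2 d hd1 s hs (x : K) _ _ hx).1
    have h4 : ((Algebra.norm ℤ x : ℤ) : ℚ) = ((k ^ 3 : ℕ) : ℚ) := by
      rw [Algebra.coe_norm_int, h3]
      have h5 : (A : ℚ) ^ 2 + d * (B : ℚ) ^ 2 = 4 * (k : ℚ) ^ 3 := by exact_mod_cast hAB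
      push_cast
      linear_combination (1 / 4) * h5
    have h5 : (Algebra.norm ℤ x : ℤ) = ((k ^ 3 : ℕ) : ℤ) := by exact_mod_cast h4
    rw [Ideal.absNorm_span_singleton, h5, Int.natAbs_natCast]
  have hnI : Ideal.absNorm I = k := by
    have h3 : (Ideal.absNorm I) ^ 3 = k ^ 3 := by
      rw [← map_pow, ← hI, hnx]
    exact Nat.pow_left_injective (by norm_num : (3 : ℕ) ≠ 0) h3
  have hnβ : Ideal.absNorm (Ideal.span {β}) = k := by rw [← hβ', hnI]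
  obtain ⟨r, hr, hr2⟩ := Pool.Agent.Q148.CG.small_norm h2 d hd s hs β k hnβ hkd
  have h5 : I * I = I * J := by
    rw [hIJ, hβ', hr, Ideal.span_singleton_mul_span_singleton]
    congr 2
    have h6 : ((r ^ 2 : ℤ) : 𝓞 K) = (((k : ℕ) : ℤ) : 𝓞 K) := by rw [hr2]
    push_cast at h6
    rw [← h6, sq]
  have hI0 : I ≠ 0 := by
    intro h0
    rw [h0] at hnI
    simp at hnI
    omega
  have h7 : I = J := mul_left_cancel₀ hI0 h5
  rw [hI, hJ, ← h7, isCoprime_self] at hc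
  have h9 : I ^ 3 = 1 := by
    have := Ideal.isUnit_iff.mp hc
    rw [this, Ideal.one_eq_top]
  have h10 : Ideal.absNorm (I ^ 3) = 1 := by
    rw [h9, map_one]
  rw [map_pow, hnI] at h10
  have h11 : 1 < k ^ 3 := Nat.one_lt_pow (by norm_num) hk
  omega

/-- the data of the construction -/
structure Dat (n m z w u v E e d f : ℤ) : Prop where
  hm : m = n + 2 * u * v
  hz : z = 2 * v - u
  hw : w = 2 * v + u
  hE : E = n ^ 2 + n * m + m ^ 2
  hed : E * z ^ 2 + e * f ^ 2 = 4 * n ^ 3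
  hd : d = E * e
  hn : 1 < n
  hm1 : 1 < m
  cnm : IsCoprime n m
  cnz : IsCoprime n z
  cmw : IsCoprime m w
  h4n : 4 * n ^ 2 < d
  h4m : 4 * m ^ 2 < d

lemma coprime_of_prime {a b : ℤ} (h : ∀ p : ℕ, p.Prime → (p : ℤ) ∣ a → ¬ (p : ℤ) ∣ b) : IsCoprime a b := by
  rw [Int.isCoprime_iff_gcd_eq_one]
  by_contra hne
  obtain ⟨p, hp, hpd⟩ := Nat.exists_prime_and_dvd hne
  have h1 : (p : ℤ) ∣ (Int.gcd a b : ℤ) := by exact_mod_cast hpd
  exact h p hp (h1.trans (Int.gcd_dvd_left ..)) (h1.trans (Int.gcd_dvd_right ..))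

end Pool.Agent.H82.CR
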