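import Mathlib

set_option autoImplicit false

/-! # A surjection of the 3-primary part onto `(ℤ / 3)²` -/

namespace Pool.Agent.H82.CR

/-- a finite commutative group with at least nine elements of order dividing three maps onto `(ℤ / 3)²` -/
lemma exists_surj (A : Type*) [CommGroup A] [Finite A]
    (h9 : 9 ≤ Nat.card {x : A // x ^ 3 = 1}) :
    ∃ φ : A →* Multiplicative (ZMod 3 × ZMod 3), Function.Surjective φ := by
  classical
  let F : A →* A := powMonoidHom 3
  have hker : Nat.card F.ker = Nat.card {x : A // x ^ 3 = 1} := by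
    apply Nat.card_congr
    exact Equiv.subtypeEquivRight (fun x => by simp [F, MonoidHom.mem_ker])
  have h1 : Nat.card F.ker * F.ker.index = Nat.card A := F.ker.card_mul_index
  have h2 : F.ker.index = Nat.card F.range := Subgroup.index_ker F
  have h3 : Nat.card F.range * F.range.index = Nat.card A := F.range.card_mul_index
  have hpos : 0 < Nat.card F.range := Nat.card_pos
  have h4 : F.range.index = Nat.card F.ker := by
    have h5 : Nat.card F.range * F.range.index = Nat.card F.range * Nat.card F.ker := by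
      rw [h3, ← h1, h2, mul_comm]
    exact Nat.eq_of_mul_eq_mul_left hpos h5
  have h5 : 9 ≤ Nat.card (A ⧸ F.range) := by
    have : F.range.index = Nat.card (A ⧸ F.range) := rfl
    rw [← this, h4, hker]; exact h9
  have h6 : ∀ x : Additive (A ⧸ F.range), 3 • x = 0 := by
    intro x
    obtain ⟨y, rfl⟩ := Additive.ofMul.surjective x
    obtain ⟨a, rfl⟩ := QuotientGroup.mk_surjective y
    rw [← ofMul_pow, ← QuotientGroup.mk_pow, ← ofMul_one]
    congr 1
    rw [QuotientGroup.eq_one_iff]
    exact ⟨a, rfl⟩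
  let _ : Module (ZMod 3) (Additive (A ⧸ F.range)) := AddCommGroup.zmodModule h6
  have _ : Finite (Additive (A ⧸ F.range)) := inferInstanceAs (Finite (A ⧸ F.range))
  have _ : Module.Finite (ZMod 3) (Additive (A ⧸ F.range)) := Module.Finite.of_finite
  have hcard := Module.natCard_eq_pow_finrank (K := ZMod 3) (V := Additive (A ⧸ F.range))
  have h7 : Nat.card (Additive (A ⧸ F.range)) = Nat.card (A ⧸ F.range) := rfl
  have h8 : Nat.card (ZMod 3) = 3 := by simp
  rw [h7, h8] at hcard
  have h9' : 2 ≤ Module.finrank (ZMod 3) (Additive (A ⧸ F.range)) := by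
    by_contra hlt
    have : Module.finrank (ZMod 3) (Additive (A ⧸ F.range)) ≤ 1 := by omega
    have h10 : (3 : ℕ) ^ Module.finrank (ZMod 3) (Additive (A ⧸ F.range)) ≤ 3 ^ 1 :=
      Nat.pow_le_pow_right (by norm_num) this
    omega
  let b := Module.finBasis (ZMod 3) (Additive (A ⧸ F.range))
  let i0 : Fin (Module.finrank (ZMod 3) (Additive (A ⧸ F.range))) := ⟨0, by omega⟩
  let i1 : Fin (Module.finrank (ZMod 3) (Additive (A ⧸ F.range))) := ⟨1, by omega⟩
  let L : Additive (A ⧸ F.range) →+ ZMod 3 × ZMod 3 :=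
    ((b.coord i0).toAddMonoidHom).prod ((b.coord i1).toAddMonoidHom)
  have hL : Function.Surjective L := by
    rintro ⟨x, y⟩
    refine ⟨x • b i0 + y • b i1, ?_⟩
    have h01 : i0 ≠ i1 := by
      intro h; have := congrArg Fin.val h; simp [i0, i1] at this
    simp only [L, AddMonoidHom.prod_apply, LinearMap.toAddMonoidHom_coe, map_add, map_smul,
      Module.Basis.coord_apply, Module.Basis.repr_self, Finsupp.single_eq_same, smul_eq_mul]
    rw [Finsupp.single_eq_of_ne h01, Finsupp.single_eq_of_ne h01.symm]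
    simp
  let ψ : (A ⧸ F.range) →* Multiplicative (ZMod 3 × ZMod 3) := AddMonoidHom.toMultiplicativeRight L
  refine ⟨ψ.comp (QuotientGroup.mk' F.range), ?_⟩
  intro y
  obtain ⟨x, hx⟩ := hL (Multiplicative.toAdd y)
  obtain ⟨a, ha⟩ := QuotientGroup.mk_surjective (Additive.toMul x)
  refine ⟨a, ?_⟩
  change Multiplicative.ofAdd (L (Additive.ofMul (QuotientGroup.mk a))) = y
  rw [ha]
  change Multiplicative.ofAdd (L x) = y
  rw [hx]
  rfl

/-- the surjections of the 3-primary part -/
lemma exists_surj_part (A : Type*) [CommGroup A] [Finite A] (a b : A) (ha : a ^ 3 = 1)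
    (hb : b ^ 3 = 1) (ha1 : a ≠ 1) (hb1 : b ≠ 1) (hab : a * b ≠ 1) (hne : a ≠ b) :
    ∃ φ : (Subgroup.closure {x : A | ∃ n : ℕ, x ^ 3 ^ n = 1}) →* Multiplicative (ZMod 3 × ZMod 3),
      Function.Surjective φ := by
  classical
  apply exists_surj
  set P := Subgroup.closure {x : A | ∃ n : ℕ, x ^ 3 ^ n = 1} with hP
  have haP : a ∈ P := Subgroup.subset_closure ⟨1, by simpa using ha⟩
  have hbP : b ∈ P := Subgroup.subset_closure ⟨1, by simpa using hb⟩
  -- the map `(i, j) ↦ a ^ i b ^ j`
  let g : Fin 3 × Fin 3 → {x : P // x ^ 3 = 1} := fun t =>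
    ⟨⟨a ^ (t.1 : ℕ) * b ^ (t.2 : ℕ), P.mul_mem (P.pow_mem haP _) (P.pow_mem hbP _)⟩, by
      apply Subtype.ext
      simp only [Subgroup.coe_pow, Subgroup.coe_one]
      rw [mul_pow, ← pow_mul, ← pow_mul, mul_comm (t.1 : ℕ) 3, mul_comm (t.2 : ℕ) 3, pow_mul,
        pow_mul, ha, hb, one_pow, one_pow, one_mul]⟩
  have hrel : ∀ i j : ℕ, i < 3 → j < 3 → a ^ i * b ^ j = 1 → i = 0 ∧ j = 0 := by
    intro i j hi hj h
    have a2 : a ^ 2 ≠ 1 := by
      intro h2; apply ha1
      calc a = a ^ 3 * (a ^ 2)⁻¹ := by group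
        _ = 1 := by rw [ha, h2]; simp
    have b2 : b ^ 2 ≠ 1 := by
      intro h2; apply hb1
      calc b = b ^ 3 * (b ^ 2)⁻¹ := by group
        _ = 1 := by rw [hb, h2]; simp
    interval_cases i <;> interval_cases j
    · exact ⟨rfl, rfl⟩
    · exact absurd (by simpa using h) hb1
    · exact absurd (by simpa using h) b2
    · exact absurd (by simpa using h) ha1
    · exact absurd (by simpa using h) hab
    · exfalso; apply hne
      have h3 : a * b ^ 2 = 1 := by simpa using h
      calc a = (a * b ^ 2) * b * (b ^ 3)⁻¹ := by group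
        _ = b := by rw [h3, hb]; simp
    · exact absurd (by simpa using h) a2
    · exfalso; apply hne
      have h3 : a ^ 2 * b = 1 := by simpa using h
      calc a = a ^ 3 * b * (a ^ 2 * b)⁻¹ := by
            rw [mul_inv_rev, pow_succ a 2]; group
        _ = b := by rw [h3, ha]; simp
    · exfalso; apply hab
      have h3 : a ^ 2 * b ^ 2 = 1 := h
      calc a * b = a ^ 3 * b ^ 3 * (a ^ 2 * b ^ 2)⁻¹ := by
            rw [← mul_pow, ← mul_pow]; group
        _ = 1 := by rw [h3, ha, hb]; simp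
  have hinj : Function.Injective g := by
    rintro ⟨i, j⟩ ⟨i', j'⟩ h
    have h1 : a ^ (i : ℕ) * b ^ (j : ℕ) = a ^ (i' : ℕ) * b ^ (j' : ℕ) := by
      have := congrArg (fun t : {x : P // x ^ 3 = 1} => ((t : P) : A)) h
      simpa [g] using this
    -- multiply by `a ^ (3 - i') b ^ (3 - j')`
    have key : ∀ k l : ℕ, k < 3 → l < 3 → ∀ k' l' : ℕ, k' < 3 → l' < 3 →
        a ^ k * b ^ l = a ^ k' * b ^ l' → k = k' ∧ l = l' := by
      intro k l hk hl k' l' hk' hl' he
      have h2 : a ^ ((k + (3 - k')) % 3) * b ^ ((l + (3 - l')) % 3) = 1 := by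
        have m1 : a ^ ((k + (3 - k')) % 3) = a ^ (k + (3 - k')) := by
          conv_rhs => rw [← Nat.div_add_mod (k + (3 - k')) 3]
          rw [pow_add, pow_mul, ha, one_pow, one_mul]
        have m2 : b ^ ((l + (3 - l')) % 3) = b ^ (l + (3 - l')) := by
          conv_rhs => rw [← Nat.div_add_mod (l + (3 - l')) 3]
          rw [pow_add, pow_mul, hb, one_pow, one_mul]
        rw [m1, m2, pow_add, pow_add]
        calc a ^ k * a ^ (3 - k') * (b ^ l * b ^ (3 - l'))
            = (a ^ k * b ^ l) * (a ^ (3 - k') * b ^ (3 - l')) := by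
              rw [mul_mul_mul_comm]
          _ = (a ^ k' * b ^ l') * (a ^ (3 - k') * b ^ (3 - l')) := by rw [he]
          _ = (a ^ k' * a ^ (3 - k')) * (b ^ l' * b ^ (3 - l')) := by rw [mul_mul_mul_comm]
          _ = 1 := by
              rw [← pow_add, ← pow_add, Nat.add_sub_cancel' hk'.le, Nat.add_sub_cancel' hl'.le,
                ha, hb, one_mul]
      obtain ⟨c1, c2⟩ := hrel _ _ (Nat.mod_lt _ (by norm_num)) (Nat.mod_lt _ (by norm_num)) h2
      omega
    obtain ⟨e1, e2⟩ := key i j i.2 j.2 i' j' i'.2 j'.2 h1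
    exact Prod.ext (Fin.ext e1) (Fin.ext e2)
  have := Nat.card_le_card_of_injective g hinj
  simpa using this

end Pool.Agent.H82.CR
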