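import Pool.Agent.H82.CR.A1

set_option autoImplicit false

/-! # Two independent ideal classes of order three -/

namespace Pool.Agent.H82.CR

open NumberField

variable {K : Type*} [Field K] [NumberField K]

namespace Dat

variable {n m z w u v E e d f : ℤ} (h : Dat n m z w u v E e d f)
include h

lemma m3 : m ^ 3 = n ^ 3 + 2 * u * v * E := by
  have h1 := h.hm; have h2 := h.hE
  subst h2; subst h1; ring

lemma hew : E * w ^ 2 + e * f ^ 2 = 4 * m ^ 3 := by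
  rw [h.m3]
  have h1 := h.hed; have h2 := h.hz; have h3 := h.hw
  subst h2; subst h3
  linear_combination h1

lemma cEn : ∀ p : ℕ, p.Prime → (p : ℤ) ∣ n → ¬ (p : ℤ) ∣ E := by
  intro p hp hpn hpE
  have hp' : Prime (p : ℤ) := Nat.prime_iff_prime_int.1 hp
  have h1 : (p : ℤ) ∣ m ^ 2 := by
    have h2 : m ^ 2 = E - n * (n + m) := by rw [h.hE]; ring
    rw [h2]
    exact dvd_sub hpE (hpn.mul_right _)
  have h2 := hp'.dvd_of_dvd_pow h1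
  have h3 := h.cnm.isUnit_of_dvd' hpn h2
  exact hp'.not_isUnit h3

lemma cEm : ∀ p : ℕ, p.Prime → (p : ℤ) ∣ m → ¬ (p : ℤ) ∣ E := by
  intro p hp hpm hpE
  have hp' : Prime (p : ℤ) := Nat.prime_iff_prime_int.1 hp
  have h1 : (p : ℤ) ∣ n ^ 2 := by
    have h2 : n ^ 2 = E - m * (n + m) := by rw [h.hE]; ring
    rw [h2]
    exact dvd_sub hpE (hpm.mul_right _)
  have h2 := hp'.dvd_of_dvd_pow h1
  have h3 := h.cnm.isUnit_of_dvd' h2 hpm
  exact hp'.not_isUnit h3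

/-- a prime dividing `n` does not divide `2 E z u v` -/
lemma pn {p : ℕ} (hp : p.Prime) (hpn : (p : ℤ) ∣ n) :
    ¬ (p : ℤ) ∣ 2 ∧ ¬ (p : ℤ) ∣ E ∧ ¬ (p : ℤ) ∣ z ∧ ¬ (p : ℤ) ∣ u ∧ ¬ (p : ℤ) ∣ v := by
  have hp' : Prime (p : ℤ) := Nat.prime_iff_prime_int.1 hp
  have h0 : ¬ (p : ℤ) ∣ 2 * u * v := by
    intro hd
    have h1 : (p : ℤ) ∣ m := by rw [h.hm]; exact dvd_add hpn hd
    exact hp'.not_isUnit (h.cnm.isUnit_of_dvd' hpn h1)
  refine ⟨fun hd => h0 ((hd.mul_right _).mul_right _), h.cEn p hp hpn, fun hd =>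
    hp'.not_isUnit (h.cnz.isUnit_of_dvd' hpn hd), fun hd => h0 ((hd.mul_left _).mul_right _),
    fun hd => h0 (hd.mul_left _)⟩

lemma pm {p : ℕ} (hp : p.Prime) (hpm : (p : ℤ) ∣ m) :
    ¬ (p : ℤ) ∣ 2 ∧ ¬ (p : ℤ) ∣ E ∧ ¬ (p : ℤ) ∣ w ∧ ¬ (p : ℤ) ∣ u ∧ ¬ (p : ℤ) ∣ v := by
  have hp' : Prime (p : ℤ) := Nat.prime_iff_prime_int.1 hp
  have h0 : ¬ (p : ℤ) ∣ 2 * u * v := by
    intro hd
    have h1 : (p : ℤ) ∣ n := by
      have h2 : n = m - 2 * u * v := by rw [h.hm]; ring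
      rw [h2]; exact dvd_sub hpm hd
    exact hp'.not_isUnit (h.cnm.isUnit_of_dvd' h1 hpm)
  refine ⟨fun hd => h0 ((hd.mul_right _).mul_right _), h.cEm p hp hpm, fun hd =>
    hp'.not_isUnit (h.cmw.isUnit_of_dvd' hpm hd), fun hd => h0 ((hd.mul_left _).mul_right _),
    fun hd => h0 (hd.mul_left _)⟩

lemma c1 : IsCoprime (2 * E * z * v - 2 * n ^ 3) (n * m) := by
  apply coprime_of_prime
  intro p hp ha hb
  have hp' : Prime (p : ℤ) := Nat.prime_iff_prime_int.1 hp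
  rcases hp'.dvd_or_dvd hb with hn | hm
  · obtain ⟨a1, a2, a3, a4, a5⟩ := h.pn hp hn
    have h1 : (p : ℤ) ∣ 2 * E * z * v := by
      have h2 : 2 * E * z * v = (2 * E * z * v - 2 * n ^ 3) + 2 * n ^ 3 := by ring
      rw [h2]
      exact dvd_add ha ((dvd_pow hn (by norm_num)).mul_left _)
    rcases hp'.dvd_or_dvd h1 with h2 | h2
    · rcases hp'.dvd_or_dvd h2 with h3 | h3
      · rcases hp'.dvd_or_dvd h3 with h4 | h4
        · exact a1 h4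
        · exact a2 h4
      · exact a3 h3
    · exact a5 h2
  · obtain ⟨a1, a2, a3, a4, a5⟩ := h.pm hp hm
    -- 2 E z v - 2 n³ = 2 E z v - 2 m³ + 4 u v E = 2 E v w - 2 m³
    have h1 : (p : ℤ) ∣ 2 * E * v * w := by
      have h2 : 2 * E * v * w = (2 * E * z * v - 2 * n ^ 3) + 2 * m ^ 3 := by
        rw [h.m3, h.hz, h.hw]; ring
      rw [h2]
      exact dvd_add ha ((dvd_pow hm (by norm_num)).mul_left _)
    rcases hp'.dvd_or_dvd h1 with h2 | h2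
    · rcases hp'.dvd_or_dvd h2 with h3 | h3
      · rcases hp'.dvd_or_dvd h3 with h4 | h4
        · exact a1 h4
        · exact a2 h4
      · exact a5 h3
    · exact a3 h2

lemma c2 : IsCoprime (2 * n ^ 3 + E * z * u) (n * m) := by
  apply coprime_of_prime
  intro p hp ha hb
  have hp' : Prime (p : ℤ) := Nat.prime_iff_prime_int.1 hp
  rcases hp'.dvd_or_dvd hb with hn | hm
  · obtain ⟨a1, a2, a3, a4, a5⟩ := h.pn hp hn
    have h1 : (p : ℤ) ∣ E * z * u := by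
      have h2 : E * z * u = (2 * n ^ 3 + E * z * u) - 2 * n ^ 3 := by ring
      rw [h2]
      exact dvd_sub ha ((dvd_pow hn (by norm_num)).mul_left _)
    rcases hp'.dvd_or_dvd h1 with h2 | h2
    · rcases hp'.dvd_or_dvd h2 with h3 | h3
      · exact a2 h3
      · exact a3 h3
    · exact a4 h2
  · obtain ⟨a1, a2, a3, a4, a5⟩ := h.pm hp hm
    -- 2 n³ + E z u = 2 m³ - 4 u v E + E z u = 2 m³ - E u w
    have h1 : (p : ℤ) ∣ E * u * w := by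
      have h2 : E * u * w = 2 * m ^ 3 - (2 * n ^ 3 + E * z * u) := by
        rw [h.m3, h.hz, h.hw]; ring
      rw [h2]
      exact dvd_sub ((dvd_pow hm (by norm_num)).mul_left _) ha
    rcases hp'.dvd_or_dvd h1 with h2 | h2
    · rcases hp'.dvd_or_dvd h2 with h3 | h3
      · exact a2 h3
      · exact a4 h3
    · exact a3 h2

lemma c3 : IsCoprime (E * z ^ 2 - 2 * n ^ 3) (n ^ 2) := by
  apply IsCoprime.pow_right
  apply coprime_of_prime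
  intro p hp ha hn
  have hp' : Prime (p : ℤ) := Nat.prime_iff_prime_int.1 hp
  obtain ⟨a1, a2, a3, a4, a5⟩ := h.pn hp hn
  have h1 : (p : ℤ) ∣ E * z ^ 2 := by
    have h2 : E * z ^ 2 = (E * z ^ 2 - 2 * n ^ 3) + 2 * n ^ 3 := by ring
    rw [h2]
    exact dvd_add ha ((dvd_pow hn (by norm_num)).mul_left _)
  rcases hp'.dvd_or_dvd h1 with h2 | h2
  · exact a2 h2
  · exact a3 (hp'.dvd_of_dvd_pow h2)

lemma c4 : IsCoprime (E * w ^ 2 - 2 * m ^ 3) (m ^ 2) := by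
  apply IsCoprime.pow_right
  apply coprime_of_prime
  intro p hp ha hn
  have hp' : Prime (p : ℤ) := Nat.prime_iff_prime_int.1 hp
  obtain ⟨a1, a2, a3, a4, a5⟩ := h.pm hp hn
  have h1 : (p : ℤ) ∣ E * w ^ 2 := by
    have h2 : E * w ^ 2 = (E * w ^ 2 - 2 * m ^ 3) + 2 * m ^ 3 := by ring
    rw [h2]
    exact dvd_add ha ((dvd_pow hn (by norm_num)).mul_left _)
  rcases hp'.dvd_or_dvd h1 with h2 | h2
  · exact a2 h2
  · exact a3 (hp'.dvd_of_dvd_pow h2)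

lemma N1 : (2 * E * z * v - 2 * n ^ 3) ^ 2 + d * (2 * f * v) ^ 2 = 4 * (n * m) ^ 3 := by
  have h1 := h.hed; have h2 := h.m3; have h3 := h.hd; have h4 := h.hz
  rw [mul_pow n m 3, h2, h3]
  have h5 : e * f ^ 2 = 4 * n ^ 3 - E * z ^ 2 := by linear_combination h1
  have h6 : E * e * (2 * f * v) ^ 2 = 4 * E * v ^ 2 * (e * f ^ 2) := by ring
  rw [h6, h5, h4]; ring

lemma N2 : (2 * n ^ 3 + E * z * u) ^ 2 + d * (f * u) ^ 2 = 4 * (n * m) ^ 3 := by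
  have h1 := h.hed; have h2 := h.m3; have h3 := h.hd; have h4 := h.hz
  rw [mul_pow n m 3, h2, h3]
  have h5 : e * f ^ 2 = 4 * n ^ 3 - E * z ^ 2 := by linear_combination h1
  have h6 : E * e * (f * u) ^ 2 = E * u ^ 2 * (e * f ^ 2) := by ring
  rw [h6, h5, h4]; ring

lemma N3 : (E * z ^ 2 - 2 * n ^ 3) ^ 2 + d * (f * z) ^ 2 = 4 * (n ^ 2) ^ 3 := by
  have h1 := h.hed; have h3 := h.hd
  rw [h3]
  have h5 : e * f ^ 2 = 4 * n ^ 3 - E * z ^ 2 := by linear_combination h1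
  have h6 : E * e * (f * z) ^ 2 = E * z ^ 2 * (e * f ^ 2) := by ring
  rw [h6, h5]; ring

lemma N4 : (E * w ^ 2 - 2 * m ^ 3) ^ 2 + d * (f * w) ^ 2 = 4 * (m ^ 2) ^ 3 := by
  have h1 := h.hew; have h3 := h.hd
  rw [h3]
  have h5 : e * f ^ 2 = 4 * m ^ 3 - E * w ^ 2 := by linear_combination h1
  have h6 : E * e * (f * w) ^ 2 = E * w ^ 2 * (e * f ^ 2) := by ring
  rw [h6, h5]; ring

/-- `ξ₊ ξ₋ = m³ η_a` -/
lemma R1 : (2 * E * z * v - 2 * n ^ 3) * (2 * n ^ 3 + E * z * u) - d * (2 * f * v) * (f * u) =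
      2 * m ^ 3 * (E * z ^ 2 - 2 * n ^ 3) ∧
    (2 * E * z * v - 2 * n ^ 3) * (f * u) + (2 * n ^ 3 + E * z * u) * (2 * f * v) =
      2 * m ^ 3 * (f * z) := by
  have h1 := h.hed; have h2 := h.m3; have h3 := h.hd; have h4 := h.hz
  have h5 : e * f ^ 2 = 4 * n ^ 3 - E * z ^ 2 := by linear_combination h1
  constructor
  · rw [h2, h3]
    have h6 : E * e * (2 * f * v) * (f * u) = 2 * E * u * v * (e * f ^ 2) := by ring
    rw [h6, h5, h4]; ring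
  · rw [h2, h4]; ring

/-- `ξ₊ ξ₋' = n³ η_b` -/
lemma R2 : (2 * E * z * v - 2 * n ^ 3) * (2 * n ^ 3 + E * z * u) + d * (2 * f * v) * (f * u) =
      2 * n ^ 3 * (E * w ^ 2 - 2 * m ^ 3) ∧
    -((2 * E * z * v - 2 * n ^ 3) * (f * u)) + (2 * n ^ 3 + E * z * u) * (2 * f * v) =
      2 * n ^ 3 * (f * w) := by
  have h1 := h.hed; have h2 := h.m3; have h3 := h.hd; have h4 := h.hz; have h7 := h.hw
  have h5 : e * f ^ 2 = 4 * n ^ 3 - E * z ^ 2 := by linear_combination h1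
  constructor
  · rw [h2, h3]
    have h6 : E * e * (2 * f * v) * (f * u) = 2 * E * u * v * (e * f ^ 2) := by ring
    rw [h6, h5, h7, h4]; ring
  · rw [h7, h4]; ring

end Dat

theorem exists_classes {n m z w u v E e : ℤ} {d : ℕ} {f : ℤ} (h : Dat n m z w u v E e d f)
    (hd : Squarefree d) (h2 : Module.finrank ℚ K = 2) (s : K) (hs : s ^ 2 = -(d : K)) :
    ∃ a b : ClassGroup (𝓞 K), a ^ 3 = 1 ∧ b ^ 3 = 1 ∧ a ≠ 1 ∧ b ≠ 1 ∧ a * b ≠ 1 ∧ a ≠ b := by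
  obtain ⟨n', rfl⟩ : ∃ n' : ℕ, n = n' := ⟨n.toNat, by have := h.hn; omega⟩
  obtain ⟨m', rfl⟩ : ∃ m' : ℕ, m = m' := ⟨m.toNat, by have := h.hm1; omega⟩
  have hn1 : 1 < n' := by exact_mod_cast h.hn
  have hm1 : 1 < m' := by exact_mod_cast h.hm1
  have hn4 : 4 * n' ^ 2 < d := by exact_mod_cast h.h4n
  have hm4 : 4 * m' ^ 2 < d := by exact_mod_cast h.h4m
  have hnm4 : 4 * (n' * m') < d := by
    rcases le_total n' m' with h1 | h1
    · calc 4 * (n' * m') ≤ 4 * m' ^ 2 := by nlinarith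
        _ < d := hm4
    · calc 4 * (n' * m') ≤ 4 * n' ^ 2 := by nlinarith
        _ < d := hn4
  have hnm1 : 1 < n' * m' := by nlinarith
  obtain ⟨x1, y1, hx1, hy1, hm1', ht1⟩ := exists_el d s hs _ _ (((n' : ℤ) * m') ^ 3) h.N1
  obtain ⟨x2, y2, hx2, hy2, hm2', ht2⟩ := exists_el d s hs _ _ (((n' : ℤ) * m') ^ 3) h.N2
  obtain ⟨x3, y3, hx3, hy3, hm3', ht3⟩ := exists_el d s hs _ _ (((n' : ℤ) ^ 2) ^ 3) h.N3
  obtain ⟨x4, y4, hx4, hy4, hm4', ht4⟩ := exists_el d s hs _ _ (((m' : ℤ) ^ 2) ^ 3) h.N4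
  obtain ⟨I1, J1, hI1, hJ1, hIJ1, hc1⟩ := exists_cube x1 y1 _ (n' * m') hnm1
    (by rw [hm1']; push_cast; rfl) ht1 (by push_cast; exact h.c1)
  obtain ⟨I2, J2, hI2, hJ2, hIJ2, hc2⟩ := exists_cube x2 y2 _ (n' * m') hnm1
    (by rw [hm2']; push_cast; rfl) ht2 (by push_cast; exact h.c2)
  obtain ⟨I3, J3, hI3, hJ3, hIJ3, hc3⟩ := exists_cube x3 y3 _ (n' ^ 2) (by nlinarith)
    (by rw [hm3']; push_cast; rfl) ht3 (by push_cast; exact h.c3)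
  obtain ⟨I4, J4, hI4, hJ4, hIJ4, hc4⟩ := exists_cube x4 y4 _ (m' ^ 2) (by nlinarith)
    (by rw [hm4']; push_cast; rfl) ht4 (by push_cast; exact h.c4)
  have P1 := not_principal h2 d hd s hs x1 y1 _ _ (n' * m') hnm1 hx1 (by push_cast; exact h.N1)
    hnm4 I1 J1 hI1 hJ1 hIJ1 hc1
  have P2 := not_principal h2 d hd s hs x2 y2 _ _ (n' * m') hnm1 hx2 (by push_cast; exact h.N2)
    hnm4 I2 J2 hI2 hJ2 hIJ2 hc2
  have P3 := not_principal h2 d hd s hs x3 y3 _ _ (n' ^ 2) (by nlinarith) hx3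
    (by push_cast; exact h.N3) hn4 I3 J3 hI3 hJ3 hIJ3 hc3
  have P4 := not_principal h2 d hd s hs x4 y4 _ _ (m' ^ 2) (by nlinarith) hx4
    (by push_cast; exact h.N4) hm4 I4 J4 hI4 hJ4 hIJ4 hc4
  -- nonzero
  have hk0 : ∀ k : ℕ, 1 < k → (k : 𝓞 K) ≠ 0 := by
    intro k hk
    have : k ≠ 0 := by omega
    exact_mod_cast this
  have hI0 : ∀ (k : ℕ) (I J : Ideal (𝓞 K)), 1 < k → I * J = Ideal.span {(k : 𝓞 K)} → I ≠ ⊥ ∧ J ≠ ⊥ := by
    intro k I J hk hIJ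
    have h0 : Ideal.span {(k : 𝓞 K)} ≠ ⊥ := by
      rw [Ne, Ideal.span_singleton_eq_bot]; exact hk0 k hk
    constructor
    · rintro rfl; rw [Ideal.bot_mul] at hIJ; exact h0 hIJ.symm
    · rintro rfl; rw [Ideal.mul_bot] at hIJ; exact h0 hIJ.symm
  obtain ⟨i1, j1⟩ := hI0 _ I1 J1 hnm1 hIJ1
  obtain ⟨i2, j2⟩ := hI0 _ I2 J2 hnm1 hIJ2
  obtain ⟨i3, j3⟩ := hI0 _ I3 J3 (by nlinarith) hIJ3
  obtain ⟨i4, j4⟩ := hI0 _ I4 J4 (by nlinarith) hIJ4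
  -- products
  have e1 : x1 * x2 = (m' : 𝓞 K) ^ 3 * x3 := by
    apply RingOfIntegers.coe_injective
    simp only [map_mul, map_pow, map_natCast]
    change (x1 : K) * (x2 : K) = (m' : K) ^ 3 * (x3 : K)
    rw [hx1, hx2, hx3]
    obtain ⟨r1, r2⟩ := h.R1
    have r1' := congrArg (Int.cast : ℤ → K) r1
    have r2' := congrArg (Int.cast : ℤ → K) r2
    push_cast at r1' r2' ⊢
    linear_combination (1 / 4) * r1' + (1 / 4) * s * r2' +
      (1 / 4) * (2 * (f : K) * v) * (f * u) * hs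
  have e2 : x1 * y2 = (n' : 𝓞 K) ^ 3 * x4 := by
    apply RingOfIntegers.coe_injective
    simp only [map_mul, map_pow, map_natCast]
    change (x1 : K) * (y2 : K) = (n' : K) ^ 3 * (x4 : K)
    rw [hx1, hy2, hx4]
    obtain ⟨r1, r2⟩ := h.R2
    have r1' := congrArg (Int.cast : ℤ → K) r1
    have r2' := congrArg (Int.cast : ℤ → K) r2
    push_cast at r1' r2' ⊢
    linear_combination (1 / 4) * r1' + (1 / 4) * s * r2' -
      (1 / 4) * (2 * (f : K) * v) * (f * u) * hs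
  have E1 : I1 * I2 = Ideal.span {(m' : 𝓞 K)} * I3 := by
    apply ideal_pow_inj
    rw [mul_pow, mul_pow, ← hI1, ← hI2, ← hI3, Ideal.span_singleton_mul_span_singleton, e1,
      Ideal.span_singleton_pow, Ideal.span_singleton_mul_span_singleton]
  have E2 : I1 * J2 = Ideal.span {(n' : 𝓞 K)} * I4 := by
    apply ideal_pow_inj
    rw [mul_pow, mul_pow, ← hI1, ← hJ2, ← hI4, Ideal.span_singleton_mul_span_singleton, e2,
      Ideal.span_singleton_pow, Ideal.span_singleton_mul_span_singleton]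
  have mz : ∀ I : Ideal (𝓞 K), I ≠ ⊥ → I ∈ nonZeroDivisors (Ideal (𝓞 K)) :=
    fun I hI => mem_nonZeroDivisors_of_ne_zero hI
  have hprin : ∀ (I : Ideal (𝓞 K)) (hI : I ≠ ⊥), ClassGroup.mk0 ⟨I, mz I hI⟩ = 1 ↔ I.IsPrincipal :=
    fun I hI => ClassGroup.mk0_eq_one_iff (mz I hI)
  have hmul : ∀ (I J : Ideal (𝓞 K)) (hI : I ≠ ⊥) (hJ : J ≠ ⊥) (hIJ : I * J ≠ ⊥),
      ClassGroup.mk0 ⟨I, mz I hI⟩ * ClassGroup.mk0 ⟨J, mz J hJ⟩ =
        ClassGroup.mk0 ⟨I * J, mz _ hIJ⟩ := by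
    intro I J hI hJ hIJ
    rw [← map_mul]
    rfl
  have hne : ∀ I J : Ideal (𝓞 K), I ≠ ⊥ → J ≠ ⊥ → I * J ≠ ⊥ := by
    intro I J hI hJ
    exact mul_ne_zero hI hJ
  have hsp : ∀ k : ℕ, 1 < k → Ideal.span {(k : 𝓞 K)} ≠ ⊥ := by
    intro k hk
    rw [Ne, Ideal.span_singleton_eq_bot]; exact hk0 k hk
  have hspan1 : ∀ (k : ℕ) (hk : 1 < k), ClassGroup.mk0 ⟨Ideal.span {(k : 𝓞 K)}, mz _ (hsp k hk)⟩ = 1 := by
    intro k hk
    rw [hprin _ (hsp k hk)]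
    exact ⟨⟨_, rfl⟩⟩
  set a : ClassGroup (𝓞 K) := ClassGroup.mk0 ⟨I1, mz _ i1⟩ with ha
  set b : ClassGroup (𝓞 K) := ClassGroup.mk0 ⟨I2, mz _ i2⟩ with hb
  have hcube : ∀ (I : Ideal (𝓞 K)) (hI : I ≠ ⊥) (x : 𝓞 K), Ideal.span {x} = I ^ 3 →
      (ClassGroup.mk0 ⟨I, mz I hI⟩) ^ 3 = 1 := by
    intro I hI x hx
    have h3 : I ^ 3 ≠ ⊥ := pow_ne_zero 3 hI
    have h4 : (ClassGroup.mk0 ⟨I, mz I hI⟩) ^ 3 = ClassGroup.mk0 ⟨I ^ 3, mz _ h3⟩ := by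
      rw [← map_pow]; rfl
    rw [h4, hprin _ h3, ← hx]
    exact ⟨⟨_, rfl⟩⟩
  have ha3 : a ^ 3 = 1 := hcube I1 i1 x1 hI1
  have hb3 : b ^ 3 = 1 := hcube I2 i2 x2 hI2
  refine ⟨a, b, ha3, hb3, ?_, ?_, ?_, ?_⟩
  · rw [ha, Ne, hprin _ i1]; exact P1
  · rw [hb, Ne, hprin _ i2]; exact P2
  · intro hab
    apply P3
    rw [← hprin I3 i3]
    rw [ha, hb, hmul _ _ i1 i2 (hne _ _ i1 i2)] at hab
    have h5 : ClassGroup.mk0 ⟨I1 * I2, mz _ (hne _ _ i1 i2)⟩ =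
        ClassGroup.mk0 ⟨Ideal.span {(m' : 𝓞 K)} * I3, mz _ (hne _ _ (hsp m' hm1) i3)⟩ := by
      congr 1
      exact Subtype.ext E1
    rw [h5, ← hmul _ _ (hsp m' hm1) i3 (hne _ _ (hsp m' hm1) i3), hspan1 m' hm1, one_mul] at hab
    exact hab
  · intro hab
    -- b * J2 class = 1, hence a * J2 class = 1
    have h6 : b * ClassGroup.mk0 ⟨J2, mz _ j2⟩ = 1 := by
      rw [hb, hmul _ _ i2 j2 (hne _ _ i2 j2), hprin _ (hne _ _ i2 j2), hIJ2]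
      exact ⟨⟨_, rfl⟩⟩
    apply P4
    rw [← hprin I4 i4]
    rw [← hab, ha, hmul _ _ i1 j2 (hne _ _ i1 j2)] at h6
    have h5 : ClassGroup.mk0 ⟨I1 * J2, mz _ (hne _ _ i1 j2)⟩ =
        ClassGroup.mk0 ⟨Ideal.span {(n' : 𝓞 K)} * I4, mz _ (hne _ _ (hsp n' hn1) i4)⟩ := by
      congr 1
      exact Subtype.ext E2
    rw [h5, ← hmul _ _ (hsp n' hn1) i4 (hne _ _ (hsp n' hn1) i4), hspan1 n' hn1, one_mul] at h6
    exact h6

end Pool.Agent.H82.CR
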