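import Pool.Agent.H82.CR.M2
import Pool.Agent.H82.CR.G1
import Pool.Graph.R_pool_sql_team_seeded_1acbe0a2.Y587.CT.FLD
import Pool.Graph.R_pool_sql_team_seeded_1acbe0a2.Y215.CT.Fin
import Pool.Graph.R_seed8.Y159.QS.Quad

set_option autoImplicit false

/-! # Imaginary quadratic fields of `3`-rank at least two -/

namespace Pool.Agent.H82.CR

open NumberField Finset Filter
open Pool.Agent.Y215.CT (ImQuad finite_imQuad)
open scoped Classical

/-- surjections of the `3`-part of the class group onto `(ℤ/3)²` -/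
abbrev Sur3 (K : IntermediateField ℚ ℂ) : Type :=
  {φ : (Subgroup.closure {x : ClassGroup (𝓞 K) | ∃ n : ℕ, x ^ 3 ^ n = 1}) →*
    Multiplicative (ZMod 3 × ZMod 3) // Function.Surjective φ}

/-- the field of a good triple -/
theorem field_of_good {n u v : ℕ} (h : Good n u v) (K : IntermediateField ℚ ℂ) (i : NumberField K)
    (h2 : Module.finrank ℚ K = 2) (hdisc : discr K = -(dd n u v : ℤ)) : Nonempty (Sur3 K) := by
  obtain ⟨a1, a2, a3, a4, f, hDat⟩ := arith h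
  obtain ⟨s, -, hs⟩ := Pool.Agent.Y159.QS.exists_sqrt (K := K) h2
  have hs' : s ^ 2 = -((dd n u v : ℕ) : K) := by
    rw [hs, hdisc]; push_cast; ring
  obtain ⟨a, b, c1, c2, c3, c4, c5, c6⟩ := exists_classes hDat a1 h2 s hs'
  have : Finite (ClassGroup (𝓞 K)) := inferInstance
  obtain ⟨φ, hφ⟩ := exists_surj_part (ClassGroup (𝓞 K)) a b c1 c2 c3 c4 c5 c6
  exact ⟨φ, hφ⟩

theorem main (ε : ℝ) (hε : 0 < ε) : ∃ X0 : ℝ, ∀ X : ℝ, X0 ≤ X →
    X ^ (2 / 5 - ε) ≤ ({K | K ∈ ImQuad X ∧ Nonempty (Sur3 K)}.ncard : ℝ) := by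
  obtain ⟨K, hK⟩ := Pool.Agent.Y215.CT.fields Pool.Agent.Y587.CT.t_FLD
  obtain ⟨X0, hX0⟩ := many_X ε hε
  refine ⟨X0, fun X hX => ?_⟩
  obtain ⟨D, hD1, hD2⟩ := hX0 X hX
  refine hD2.trans ?_
  have hfin : {L | L ∈ ImQuad X ∧ Nonempty (Sur3 L)}.Finite :=
    (finite_imQuad X).subset (fun L hL => hL.1)
  have hmem : ∀ d ∈ D, K d ∈ {L | L ∈ ImQuad X ∧ Nonempty (Sur3 L)} := by
    intro d hd
    obtain ⟨n, u, v, h1, h2, rfl⟩ := hD1 d hd
    obtain ⟨a1, a2, a3, a4, -⟩ := arith h1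
    obtain ⟨i, b1, b2, b3, -⟩ := hK _ a1 a2
    refine ⟨⟨i, b1, b3, ?_⟩, field_of_good h1 _ i b1 b2⟩
    rw [b2]
    push_cast
    rw [abs_neg, Nat.abs_cast]
    exact h2
  have hinj : Set.InjOn K D := by
    intro d hd d' hd' he
    obtain ⟨n, u, v, h1, h2, rfl⟩ := hD1 d hd
    obtain ⟨a1, a2, a3, a4, -⟩ := arith h1
    obtain ⟨i, b1, b2, b3, -⟩ := hK _ a1 a2
    obtain ⟨n', u', v', h1', h2', rfl⟩ := hD1 d' hd'
    obtain ⟨a1', a2', a3', a4', -⟩ := arith h1'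
    obtain ⟨i', b1', b2', b3', -⟩ := hK _ a1' a2'
    have key : ∀ L L' : IntermediateField ℚ ℂ, L = L' → ∀ (i : NumberField L) (i' : NumberField L'),
        @discr L _ i = @discr L' _ i' := by
      rintro L L' rfl i i'
      rfl
    have := key _ _ he i i'
    rw [b2, b2'] at this
    omega
  have h1 : (D.image K).card ≤ {L | L ∈ ImQuad X ∧ Nonempty (Sur3 L)}.ncard := by
    rw [Set.ncard_eq_toFinset_card _ hfin]
    apply card_le_card
    intro L hL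
    obtain ⟨d, hd, rfl⟩ := mem_image.1 hL
    exact hfin.mem_toFinset.2 (hmem d hd)
  rw [card_image_of_injOn hinj] at h1
  exact_mod_cast h1

theorem main_moment (ε : ℝ) (hε : 0 < ε) : ∃ X0 : ℝ, ∀ X : ℝ, X0 ≤ X →
    X ^ (2 / 5 - ε) ≤ ∑ᶠ K ∈ ImQuad X, (Nat.card (Sur3 K) : ℝ) := by
  obtain ⟨X0, h⟩ := main ε hε
  refine ⟨X0, fun X hX => (h X hX).trans ?_⟩
  have hfin := finite_imQuad X
  have hfin' : {L | L ∈ ImQuad X ∧ Nonempty (Sur3 L)}.Finite :=
    hfin.subset (fun L hL => hL.1)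
  rw [finsum_mem_eq_finite_toFinset_sum _ hfin, Set.ncard_eq_toFinset_card _ hfin']
  have hsub : hfin'.toFinset ⊆ hfin.toFinset := by
    intro L hL
    exact hfin.mem_toFinset.2 (hfin'.mem_toFinset.1 hL).1
  refine le_trans ?_ (sum_le_sum_of_subset_of_nonneg hsub (fun L _ _ => Nat.cast_nonneg _))
  rw [card_eq_sum_ones, Nat.cast_sum]
  apply sum_le_sum
  intro L hL
  obtain ⟨⟨i, _⟩, hne⟩ := hfin'.mem_toFinset.1 hL
  have : Finite (ClassGroup (𝓞 L)) := inferInstance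
  have hf : Finite (Sur3 L) := by
    unfold Sur3
    have : Finite ((Subgroup.closure {x : ClassGroup (𝓞 L) | ∃ n : ℕ, x ^ 3 ^ n = 1}) →*
      Multiplicative (ZMod 3 × ZMod 3)) := by
      exact DFunLike.finite _
    infer_instance
  have : 0 < Nat.card (Sur3 L) := Nat.card_pos
  exact_mod_cast this

end Pool.Agent.H82.CR
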