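import Pool.Agent.H82.CR.S3
import Pool.Graph.R_seed8.H510R2.Div
import Pool.Graph.R_pool_sql_team_seeded_1acbe0a2.Y215.CT.Prm

set_option autoImplicit false

/-! # Many good triples -/

namespace Pool.Agent.H82.CR

open Finset Filter

/-- the triple of the parameters -/
def tr (x : ℕ × ℕ × ℕ) : ℕ × ℕ × ℕ := (x.1, uu x.2.1, vv x.2.2)

lemma tr_inj : Function.Injective tr := by
  rintro ⟨a, b, c⟩ ⟨a', b', c'⟩ h
  simp only [tr, Prod.mk.injEq, uu, vv] at h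
  obtain ⟨h1, h2, h3⟩ := h
  have : b = b' := by omega
  have : c = c' := by omega
  simp [*]

lemma copr {R n b c : ℕ} (hR : 2 ≤ R) (hn : n.Prime) (hRn : R ^ 2 ≤ n)
    (hb : b < R / 840) (hc : c < R / 8) : Nat.Coprime n (2 * (uu b * vv c)) := by
  have su := uu_size hb
  have sv := vv_size hc
  have hu0 : 0 < uu b := (uu_odd b).pos
  have hv0 : 0 < vv c := (vv_odd c).pos
  have hRltn : R < n := by nlinarith
  rw [hn.coprime_iff_not_dvd]
  intro h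
  rcases hn.dvd_mul.1 h with h2 | h2
  · have := Nat.le_of_dvd (by norm_num) h2; omega
  · rcases hn.dvd_mul.1 h2 with h3 | h3
    · have := Nat.le_of_dvd hu0 h3; omega
    · have := Nat.le_of_dvd hv0 h3; omega

lemma one_lt_EE {n : ℕ} (u v : ℕ) (hn : 1 < n) : 1 < EE n u v := by
  unfold EE
  have h1 : 1 < 3 * n ^ 2 := by nlinarith
  omega

/-- the combinatorial count -/
theorem count1 (N R Y M D : ℕ) (hR : 10 ^ 13 ≤ R) (hRN : R ^ 2 ≤ N) (hY0 : 0 < Y) (hY : Y ^ 2 ≤ R)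
    (hM : ∀ k, 1 ≤ k → k ≤ 3 * N → k.divisors.card ≤ M)
    (hD : ∀ k, 1 ≤ k → k ≤ 117 * N ^ 2 → k.divisors.card ≤ D) :
    ∃ S : Finset (ℕ × ℕ × ℕ), (∀ x ∈ S, Good x.1 x.2.1 x.2.2 ∧ x.1 ≤ 3 * N) ∧
      (((Ioc N (3 * N)).filter Nat.Prime).card : ℝ) * ((R : ℝ) ^ 2 / 53760) -
        (M * D : ℝ) * ((117 * N ^ 2 : ℝ) / Y) ≤ S.card := by
  classical
  set P := (Ioc N (3 * N)).filter Nat.Prime with hP
  set A : Finset (ℕ × ℕ × ℕ) := (P ×ˢ (range (R / 840) ×ˢ range (R / 8))).filter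
    (fun x => PP R Y x.1 x.2) with hA
  set bad : ℕ × ℕ × ℕ → Prop := fun x => ∃ q : ℕ, q.Prime ∧ Y < q ∧
    q ^ 2 ∣ EE x.1 (uu x.2.1) (vv x.2.2) with hbad
  have hPm : ∀ n ∈ P, n.Prime ∧ N < n ∧ n ≤ 3 * N := by
    intro n hn
    rw [hP, mem_filter, mem_Ioc] at hn
    exact ⟨hn.2, hn.1.1, hn.1.2⟩
  have hAm : ∀ x ∈ A, (x.1.Prime ∧ N < x.1 ∧ x.1 ≤ 3 * N) ∧ x.2.1 < R / 840 ∧ x.2.2 < R / 8 ∧
      PP R Y x.1 x.2 := by
    intro x hx
    rw [hA, mem_filter, mem_product, mem_product, mem_range, mem_range] at hx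
    exact ⟨hPm _ hx.1.1, hx.1.2.1, hx.1.2.2, hx.2⟩
  have hAcard : (P.card : ℝ) * ((R : ℝ) ^ 2 / 53760) ≤ A.card := by
    have h1 : A.card = ∑ n ∈ P, ((range (R / 840) ×ˢ range (R / 8)).filter (PP R Y n)).card := by
      have h2 : A = P.biUnion (fun n => ((range (R / 840) ×ˢ range (R / 8)).filter
          (PP R Y n)).image (fun y => (n, y))) := by
        ext x
        simp only [hA, mem_filter, mem_product, mem_biUnion, mem_image]
        constructor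
        · rintro ⟨⟨h1, h2⟩, h3⟩
          exact ⟨x.1, h1, x.2, ⟨h2, h3⟩, rfl⟩
        · rintro ⟨n, h1, y, ⟨h2, h3⟩, rfl⟩
          exact ⟨⟨h1, h2⟩, h3⟩
      rw [h2, card_biUnion]
      · apply sum_congr rfl
        intro n _
        apply card_image_of_injective
        intro y y' h
        exact (Prod.mk.inj h).2
      · intro n _ n' _ hne
        rw [Function.onFun, disjoint_left]
        intro x hx hx'
        obtain ⟨y, _, rfl⟩ := mem_image.1 hx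
        obtain ⟨y', _, h⟩ := mem_image.1 hx'
        exact hne (Prod.mk.inj h).1.symm
    rw [h1, Nat.cast_sum]
    calc (P.card : ℝ) * ((R : ℝ) ^ 2 / 53760) = ∑ n ∈ P, ((R : ℝ) ^ 2 / 53760) := by
          rw [sum_const, nsmul_eq_mul]
      _ ≤ _ := by
          apply sum_le_sum
          intro n hn
          obtain ⟨h1, h2, h3⟩ := hPm n hn
          exact sieve R n Y hR hY h1 (by nlinarith)
  have hsplit : (A.filter bad).card + (A.filter (fun x => ¬ bad x)).card = A.card :=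
    card_filter_add_card_filter_not _
  -- the bad ones
  have hBad : ((A.filter bad).card : ℝ) ≤ (M * D : ℝ) * ((117 * N ^ 2 : ℝ) / Y) := by
    have h1 : (A.filter bad).card ≤ (M * D) *
        ((A.filter bad).image (fun x => EE x.1 (uu x.2.1) (vv x.2.2))).card := by
      apply card_le_mul_card_image
      intro t ht
      obtain ⟨y, hy, hyt⟩ := mem_image.1 ht
      rw [mem_filter] at hy
      obtain ⟨⟨y1, y2, y3⟩, y4, y5, y6⟩ := hAm y hy.1
      have huv : uu y.2.1 * vv y.2.2 ≤ y.1 := by have := uv_le y4 y5; omega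
      have ht1 : 1 < t := by
        rw [← hyt]; exact one_lt_EE _ _ y1.one_lt
      have ht2 : t ≤ 117 * N ^ 2 := by
        rw [← hyt]
        refine (EE_le huv).trans ?_
        calc 13 * y.1 ^ 2 ≤ 13 * (3 * N) ^ 2 := by gcongr
          _ = 117 * N ^ 2 := by ring
      rw [← card_image_of_injective _ tr_inj]
      refine (triple_card ht1 M _ ?_).trans (Nat.mul_le_mul_left _ (hD t ht1.le ht2))
      intro x hx
      obtain ⟨z, hz, rfl⟩ := mem_image.1 hx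
      rw [mem_filter, mem_filter] at hz
      obtain ⟨⟨z1, z2, z3⟩, z4, z5, z6⟩ := hAm z hz.1.1
      have huz := uv_le z4 z5
      have hpos : 0 < uu z.2.1 * vv z.2.2 := Nat.mul_pos (uu_odd _).pos (vv_odd _).pos
      refine ⟨hz.2, ?_, hpos, hM _ hpos (by simp only [tr]; omega)⟩
      exact copr (R := R) (by omega) z1 (show R ^ 2 ≤ z.1 by omega) z4 z5
    have h2 : (((A.filter bad).image (fun x => EE x.1 (uu x.2.1) (vv x.2.2))).card : ℝ) ≤
        ((117 * N ^ 2 : ℕ) : ℝ) / Y := by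
      apply large_sq _ Y hY0
      intro t ht
      obtain ⟨y, hy, hyt⟩ := mem_image.1 ht
      rw [mem_filter] at hy
      obtain ⟨⟨y1, y2, y3⟩, y4, y5, y6⟩ := hAm y hy.1
      have huv : uu y.2.1 * vv y.2.2 ≤ y.1 := by have := uv_le y4 y5; omega
      have ht1 : 0 < t := by
        rw [← hyt]; exact zero_lt_one.trans (one_lt_EE _ _ y1.one_lt)
      have ht2 : t ≤ 117 * N ^ 2 := by
        rw [← hyt]
        refine (EE_le huv).trans ?_
        calc 13 * y.1 ^ 2 ≤ 13 * (3 * N) ^ 2 := by gcongr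
          _ = 117 * N ^ 2 := by ring
      obtain ⟨q, q1, q2, q3⟩ := hy.2
      exact ⟨ht1, ht2, q, q2, by rw [← hyt]; exact q3⟩
    push_cast at h2
    calc ((A.filter bad).card : ℝ) ≤ (M * D : ℝ) *
        (((A.filter bad).image (fun x => EE x.1 (uu x.2.1) (vv x.2.2))).card : ℝ) := by
          exact_mod_cast h1
      _ ≤ _ := mul_le_mul_of_nonneg_left h2 (by positivity)
  refine ⟨(A.filter (fun x => ¬ bad x)).image tr, ?_, ?_⟩
  · intro x hx
    obtain ⟨y, hy, rfl⟩ := mem_image.1 hx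
    rw [mem_filter] at hy
    obtain ⟨⟨y1, y2, y3⟩, y4, y5, y6⟩ := hAm y hy.1
    refine ⟨?_, y3⟩
    apply good_of hR y1 (by omega) y4 y5 y6
    intro q hq hYq hd
    exact hy.2 ⟨q, hq, hYq, hd⟩
  · rw [card_image_of_injective _ tr_inj]
    have h3 : ((A.filter bad).card : ℝ) + ((A.filter (fun x => ¬ bad x)).card : ℝ) = A.card := by
      exact_mod_cast hsplit
    linarith

/-- the divisor bound with a natural number -/
lemma div_nat (δ : ℝ) (hδ : 0 < δ) : ∃ C : ℝ, 0 < C ∧ ∀ T : ℕ, ∃ M : ℕ, (M : ℝ) ≤ C * (T : ℝ) ^ δ ∧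
    ∀ k, 1 ≤ k → k ≤ T → k.divisors.card ≤ M := by
  obtain ⟨C, hC, h⟩ := Pool.Agent.H510R2.divisor_bound δ hδ
  refine ⟨C, hC, fun T => ⟨⌊C * (T : ℝ) ^ δ⌋₊, Nat.floor_le (by positivity), ?_⟩⟩
  intro k hk hkT
  apply Nat.le_floor
  refine (h k hk).trans ?_
  gcongr

/-- many good triples -/
theorem many_good (ε : ℝ) (hε : 0 < ε) : ∃ N0 : ℕ, ∀ N : ℕ, N0 ≤ N →
    ∃ S : Finset (ℕ × ℕ × ℕ), (∀ x ∈ S, Good x.1 x.2.1 x.2.2 ∧ x.1 ≤ 3 * N) ∧
      (N : ℝ) ^ (2 - ε) ≤ S.card := by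
  obtain ⟨C, hC, hdiv⟩ := div_nat (1 / 24) (by norm_num)
  obtain ⟨R0, hR0⟩ := Pool.Agent.Y215.CT.t_PRM
  set η : ℝ := min ε (1 / 16) with hη
  have hη0 : 0 < η := lt_min hε (by norm_num)
  have hη1 : η ≤ 1 / 16 := min_le_right _ _
  have hη2 : η ≤ ε := min_le_left _ _
  -- eventual inequalities
  have e1 : ∀ᶠ x : ℝ in atTop, Real.log x ≤ (1 / 3440640) * x ^ η := by
    have h := isLittleO_log_rpow_atTop hη0
    have h2 := h.bound (show (0 : ℝ) < 1 / 3440640 by norm_num)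
    filter_upwards [h2, eventually_ge_atTop 1] with x hx h1
    rw [Real.norm_of_nonneg (Real.log_nonneg h1), Real.norm_of_nonneg (by positivity)] at hx
    exact hx
  have e2 : ∀ᶠ x : ℝ in atTop, C ^ 2 * 123201 ≤ x ^ (1 / 8 - η) := by
    exact (tendsto_rpow_atTop (by linarith)).eventually_ge_atTop _
  have e3 := (e1.and (e2.and (eventually_ge_atTop (10 ^ 27 : ℝ))))
  have e4 := (tendsto_natCast_atTop_atTop (R := ℝ)).eventually e3
  obtain ⟨N1, hN1⟩ := eventually_atTop.1 e4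
  refine ⟨max R0 N1, fun N hN => ?_⟩
  obtain ⟨f1, f2, f3⟩ := hN1 N ((le_max_right _ _).trans hN)
  have hprm := hR0 N ((le_max_left _ _).trans hN)
  have hNpos : (0 : ℝ) < N := by linarith [show (0 : ℝ) < 10 ^ 27 by norm_num]
  have hNbig : 10 ^ 27 ≤ N := by exact_mod_cast f3
  set R := Nat.sqrt N with hR
  set Y := Nat.sqrt R with hY
  have hR1 : R ^ 2 ≤ N := Nat.sqrt_le' N
  have hR2 : N < (R + 1) ^ 2 := Nat.lt_succ_sqrt' N
  have hY1 : Y ^ 2 ≤ R := Nat.sqrt_le' R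
  have hY2 : R < (Y + 1) ^ 2 := Nat.lt_succ_sqrt' R
  have hR3 : 10 ^ 13 ≤ R := by
    rw [hR, Nat.le_sqrt']
    refine le_trans ?_ hNbig
    norm_num
  have hY3 : 1 ≤ Y := by
    rw [hY, Nat.le_sqrt']; omega
  obtain ⟨M, hM1, hM2⟩ := hdiv (3 * N)
  obtain ⟨D, hD1, hD2⟩ := hdiv (117 * N ^ 2)
  obtain ⟨S, hS1, hS2⟩ := count1 N R Y M D hR3 hR1 hY3 hY1 hM2 hD2
  refine ⟨S, hS1, ?_⟩
  refine le_trans ?_ hS2
  have hlog : 0 < Real.log N := Real.log_pos (by linarith [show (1 : ℝ) < 10 ^ 27 by norm_num])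
  -- first term
  have g1 : (N : ℝ) / 4 ≤ (R : ℝ) ^ 2 := by
    have h1 : N < 4 * R ^ 2 := by nlinarith
    have h2 : (N : ℝ) < 4 * (R : ℝ) ^ 2 := by exact_mod_cast h1
    linarith
  have g2 : (N : ℝ) ^ 2 / (1720320 * Real.log N) ≤
      (((Ioc N (3 * N)).filter Nat.Prime).card : ℝ) * ((R : ℝ) ^ 2 / 53760) := by
    calc (N : ℝ) ^ 2 / (1720320 * Real.log N) = (N / (8 * Real.log N)) * ((N / 4) / 53760) := by
          field_simp; norm_num
      _ ≤ _ := by gcongr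
  have g3 : 2 * (N : ℝ) ^ (2 - η) ≤ (N : ℝ) ^ 2 / (1720320 * Real.log N) := by
    rw [le_div_iff₀ (by positivity)]
    have h1 : (N : ℝ) ^ 2 = (N : ℝ) ^ (2 - η) * (N : ℝ) ^ η := by
      rw [← Real.rpow_add hNpos, sub_add_cancel]
      norm_cast
    rw [h1]
    have h2 : 0 < (N : ℝ) ^ (2 - η) := by positivity
    nlinarith
  -- second term
  have g4 : (N : ℝ) ^ (1 / 4 : ℝ) / 3 ≤ Y := by
    have h1 : (N : ℝ) ≤ 4 * (R : ℝ) ^ 2 := by linarith
    have h2 : (R : ℝ) ≤ 4 * (Y : ℝ) ^ 2 := by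
      have : R < 4 * Y ^ 2 := by nlinarith
      have : (R : ℝ) < 4 * (Y : ℝ) ^ 2 := by exact_mod_cast this
      linarith
    have h3 : (N : ℝ) ≤ (3 * (Y : ℝ)) ^ 4 := by
      have h4 : (R : ℝ) ^ 2 ≤ (4 * (Y : ℝ) ^ 2) ^ 2 := by gcongr
      nlinarith [pow_nonneg (Nat.cast_nonneg Y : (0 : ℝ) ≤ Y) 4]
    have h5 : (N : ℝ) ^ (1 / 4 : ℝ) ≤ 3 * (Y : ℝ) := by
      calc (N : ℝ) ^ (1 / 4 : ℝ) ≤ ((3 * (Y : ℝ)) ^ 4) ^ (1 / 4 : ℝ) := by gcongr
        _ = 3 * (Y : ℝ) := by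
          rw [← Real.rpow_natCast, ← Real.rpow_mul (by positivity)]
          norm_num
    linarith
  have g5 : (M * D : ℝ) * ((117 * N ^ 2 : ℝ) / Y) ≤ (N : ℝ) ^ (2 - η) := by
    push_cast at hM1 hD1
    have hN14 : 0 < (N : ℝ) ^ (1 / 4 : ℝ) := by positivity
    have h1 : (M : ℝ) ≤ C * (3 * (N : ℝ) ^ (1 / 24 : ℝ)) := by
      refine hM1.trans ?_
      rw [Real.mul_rpow (by norm_num) hNpos.le]
      have : (3 : ℝ) ^ (1 / 24 : ℝ) ≤ 3 ^ (1 : ℝ) :=
        Real.rpow_le_rpow_of_exponent_le (by norm_num) (by norm_num)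
      rw [Real.rpow_one] at this
      gcongr
    have h2 : (D : ℝ) ≤ C * (117 * (N : ℝ) ^ (1 / 12 : ℝ)) := by
      refine hD1.trans ?_
      rw [Real.mul_rpow (by norm_num) (by positivity)]
      have : (117 : ℝ) ^ (1 / 24 : ℝ) ≤ 117 ^ (1 : ℝ) :=
        Real.rpow_le_rpow_of_exponent_le (by norm_num) (by norm_num)
      rw [Real.rpow_one] at this
      have h3 : ((N : ℝ) ^ 2) ^ (1 / 24 : ℝ) = (N : ℝ) ^ (1 / 12 : ℝ) := by
        rw [← Real.rpow_natCast, ← Real.rpow_mul hNpos.le]; norm_num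
      rw [h3]
      gcongr
    have hYpos : (0 : ℝ) < Y := by exact_mod_cast hY3
    have h3 : (117 * (N : ℝ) ^ 2) / Y ≤ 351 * (N : ℝ) ^ (7 / 4 : ℝ) := by
      rw [div_le_iff₀ hYpos]
      have h4 : (N : ℝ) ^ 2 = (N : ℝ) ^ (7 / 4 : ℝ) * (N : ℝ) ^ (1 / 4 : ℝ) := by
        rw [← Real.rpow_add hNpos]; norm_num
      rw [h4]
      have h5 : 0 < (N : ℝ) ^ (7 / 4 : ℝ) := by positivity
      nlinarith
    calc (M * D : ℝ) * ((117 * N ^ 2 : ℝ) / Y)
        ≤ ((C * (3 * (N : ℝ) ^ (1 / 24 : ℝ))) * (C * (117 * (N : ℝ) ^ (1 / 12 : ℝ)))) *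
          (351 * (N : ℝ) ^ (7 / 4 : ℝ)) := by gcongr
      _ = (C ^ 2 * 123201) * ((N : ℝ) ^ (1 / 24 : ℝ) * (N : ℝ) ^ (1 / 12 : ℝ) *
            (N : ℝ) ^ (7 / 4 : ℝ)) := by ring
      _ = (C ^ 2 * 123201) * (N : ℝ) ^ (15 / 8 : ℝ) := by
          rw [← Real.rpow_add hNpos, ← Real.rpow_add hNpos]; norm_num
      _ ≤ (N : ℝ) ^ (1 / 8 - η) * (N : ℝ) ^ (15 / 8 : ℝ) := by gcongr
      _ = (N : ℝ) ^ (2 - η) := by
          rw [← Real.rpow_add hNpos]
          congr 1; ring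
  have g6 : (N : ℝ) ^ (2 - ε) ≤ (N : ℝ) ^ (2 - η) := by
    apply Real.rpow_le_rpow_of_exponent_le _ (by linarith)
    linarith [show (1 : ℝ) < 10 ^ 27 by norm_num]
  linarith

end Pool.Agent.H82.CR
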