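import Pool.Agent.H82.CR.M1

set_option autoImplicit false

/-! # Many discriminants -/

namespace Pool.Agent.H82.CR

open Finset Filter

lemma dd_pos {n u v : ℕ} (h : Good n u v) : 0 < dd n u v := by
  obtain ⟨-, h2, -⟩ := arith h
  omega

lemma good_cop {n u v : ℕ} (h : Good n u v) : Nat.Coprime n (2 * (u * v)) := by
  rw [← Nat.isCoprime_iff_coprime]
  have := h.c1
  push_cast
  rw [← mul_assoc]
  exact this

/-- the fibres of `dd` -/
theorem fib (T M D : ℕ) (S : Finset (ℕ × ℕ × ℕ)) (d : ℕ)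
    (hS : ∀ x ∈ S, Good x.1 x.2.1 x.2.2 ∧ x.1 ≤ T ∧ dd x.1 x.2.1 x.2.2 = d)
    (hM : ∀ k, 1 ≤ k → k ≤ T → k.divisors.card ≤ M)
    (hD : ∀ k, 1 ≤ k → k ≤ 52 * T ^ 5 → k.divisors.card ≤ D) :
    S.card ≤ M * D * D := by
  classical
  rcases S.eq_empty_or_nonempty with rfl | ⟨x0, hx0⟩
  · simp
  obtain ⟨h1, h2, h3⟩ := hS x0 hx0
  have hd0 : 0 < d := by rw [← h3]; exact dd_pos h1
  have hdT : d ≤ 52 * T ^ 5 := by
    rw [← h3]
    refine (arith h1).2.2.1.trans ?_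
    gcongr
  have h4 : S.card ≤ (M * D) * (S.image (fun x => EE x.1 x.2.1 x.2.2)).card := by
    apply card_le_mul_card_image
    intro t ht
    obtain ⟨y, hy, hyt⟩ := mem_image.1 ht
    obtain ⟨y1, y2, y3⟩ := hS y hy
    have ht1 : 1 < t := by rw [← hyt]; exact one_lt_EE _ _ y1.hn
    have htd : t ∣ d := by rw [← y3, ← hyt]; exact (arith y1).2.2.2.1
    have ht2 : t ≤ 52 * T ^ 5 := (Nat.le_of_dvd hd0 htd).trans hdT
    refine (triple_card ht1 M _ ?_).trans (Nat.mul_le_mul_left _ (hD t ht1.le ht2))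
    intro x hx
    rw [mem_filter] at hx
    obtain ⟨z1, z2, z3⟩ := hS x hx.1
    have hpos : 0 < x.2.1 * x.2.2 := Nat.mul_pos z1.ou.pos z1.ov.pos
    exact ⟨hx.2, good_cop z1, hpos, hM _ hpos (z1.huv.trans z2)⟩
  have h5 : (S.image (fun x => EE x.1 x.2.1 x.2.2)).card ≤ D := by
    refine le_trans (card_le_card ?_) (hD d hd0 hdT)
    intro t ht
    obtain ⟨y, hy, hyt⟩ := mem_image.1 ht
    obtain ⟨y1, y2, y3⟩ := hS y hy
    rw [Nat.mem_divisors]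
    exact ⟨by rw [← y3, ← hyt]; exact (arith y1).2.2.2.1, hd0.ne'⟩
  exact h4.trans (Nat.mul_le_mul_left _ h5)

/-- many discriminants -/
theorem many_dd (ε : ℝ) (hε : 0 < ε) : ∃ N0 : ℕ, ∀ N : ℕ, N0 ≤ N →
    ∃ D : Finset ℕ, (∀ d ∈ D, ∃ n u v, Good n u v ∧ n ≤ 3 * N ∧ dd n u v = d) ∧
      (N : ℝ) ^ (2 - ε) ≤ D.card := by
  classical
  set δ : ℝ := min (ε / 60) 1 with hδ
  have hδ0 : 0 < δ := lt_min (by linarith) one_pos
  have hδ1 : δ ≤ 1 := min_le_right _ _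
  have hδ2 : δ ≤ ε / 60 := min_le_left _ _
  obtain ⟨C, hC, hdiv⟩ := div_nat δ hδ0
  obtain ⟨N1, hN1⟩ := many_good (ε / 4) (by linarith)
  have e1 : ∀ᶠ x : ℝ in atTop, C ^ 3 * (3 * 12636 ^ 2) ≤ x ^ (ε / 2) :=
    (tendsto_rpow_atTop (by linarith)).eventually_ge_atTop _
  have e2 := (tendsto_natCast_atTop_atTop (R := ℝ)).eventually (e1.and (eventually_ge_atTop 1))
  obtain ⟨N2, hN2⟩ := eventually_atTop.1 e2
  refine ⟨max N1 N2, fun N hN => ?_⟩
  obtain ⟨S, hS1, hS2⟩ := hN1 N ((le_max_left _ _).trans hN)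
  obtain ⟨f1, f2⟩ := hN2 N ((le_max_right _ _).trans hN)
  obtain ⟨M, hM1, hM2⟩ := hdiv (3 * N)
  obtain ⟨D, hD1, hD2⟩ := hdiv (52 * (3 * N) ^ 5)
  have hNpos : (0 : ℝ) < N := by linarith
  refine ⟨S.image (fun x => dd x.1 x.2.1 x.2.2), ?_, ?_⟩
  · intro d hd
    obtain ⟨x, hx, rfl⟩ := mem_image.1 hd
    exact ⟨_, _, _, (hS1 x hx).1, (hS1 x hx).2, rfl⟩
  have h1 : S.card ≤ (M * D * D) * (S.image (fun x => dd x.1 x.2.1 x.2.2)).card := by
    apply card_le_mul_card_image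
    intro d _
    apply fib (3 * N) M D _ d _ hM2 hD2
    intro x hx
    rw [mem_filter] at hx
    exact ⟨(hS1 x hx.1).1, (hS1 x hx.1).2, hx.2⟩
  have h2 : (S.card : ℝ) ≤ (M * D * D : ℝ) * ((S.image (fun x => dd x.1 x.2.1 x.2.2)).card : ℝ) := by
    exact_mod_cast h1
  have h3 : (M * D * D : ℝ) ≤ (N : ℝ) ^ (3 * ε / 4) := by
    push_cast at hM1 hD1
    have g1 : (M : ℝ) ≤ C * (3 * (N : ℝ) ^ δ) := by
      refine hM1.trans ?_
      rw [Real.mul_rpow (by norm_num) hNpos.le]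
      have : (3 : ℝ) ^ δ ≤ 3 ^ (1 : ℝ) :=
        Real.rpow_le_rpow_of_exponent_le (by norm_num) hδ1
      rw [Real.rpow_one] at this
      gcongr
    have g2 : (D : ℝ) ≤ C * (12636 * (N : ℝ) ^ (5 * δ)) := by
      refine hD1.trans ?_
      have e : (52 : ℝ) * (3 * N) ^ 5 = 12636 * (N : ℝ) ^ 5 := by ring
      rw [e, Real.mul_rpow (by norm_num) (by positivity)]
      have h4 : (12636 : ℝ) ^ δ ≤ 12636 ^ (1 : ℝ) :=
        Real.rpow_le_rpow_of_exponent_le (by norm_num) hδ1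
      rw [Real.rpow_one] at h4
      have h5 : ((N : ℝ) ^ 5) ^ δ = (N : ℝ) ^ (5 * δ) := by
        rw [← Real.rpow_natCast, ← Real.rpow_mul hNpos.le]; norm_num
      rw [h5]
      gcongr
    calc (M * D * D : ℝ) ≤ (C * (3 * (N : ℝ) ^ δ)) * (C * (12636 * (N : ℝ) ^ (5 * δ))) *
          (C * (12636 * (N : ℝ) ^ (5 * δ))) := by gcongr
      _ = (C ^ 3 * (3 * 12636 ^ 2)) * ((N : ℝ) ^ δ * (N : ℝ) ^ (5 * δ) * (N : ℝ) ^ (5 * δ)) := by ring
      _ = (C ^ 3 * (3 * 12636 ^ 2)) * (N : ℝ) ^ (11 * δ) := by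
          rw [← Real.rpow_add hNpos, ← Real.rpow_add hNpos]
          congr 2; ring
      _ ≤ (N : ℝ) ^ (ε / 2) * (N : ℝ) ^ (ε / 4) := by
          gcongr
          linarith
      _ = (N : ℝ) ^ (3 * ε / 4) := by
          rw [← Real.rpow_add hNpos]
          congr 1; ring
  have h4 : (N : ℝ) ^ (2 - ε / 4) ≤ (N : ℝ) ^ (3 * ε / 4) *
      ((S.image (fun x => dd x.1 x.2.1 x.2.2)).card : ℝ) :=
    hS2.trans (h2.trans (mul_le_mul_of_nonneg_right h3 (Nat.cast_nonneg _)))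
  have h5 : (N : ℝ) ^ (2 - ε / 4) = (N : ℝ) ^ (3 * ε / 4) * (N : ℝ) ^ (2 - ε) := by
    rw [← Real.rpow_add hNpos]
    congr 1; ring
  rw [h5] at h4
  exact le_of_mul_le_mul_left h4 (by positivity)

/-- many discriminants up to `X` -/
theorem many_X (ε : ℝ) (hε : 0 < ε) : ∃ X0 : ℝ, ∀ X : ℝ, X0 ≤ X →
    ∃ D : Finset ℕ, (∀ d ∈ D, ∃ n u v, Good n u v ∧ (d : ℝ) ≤ X ∧ dd n u v = d) ∧
      X ^ (2 / 5 - ε) ≤ D.card := by
  obtain ⟨N0, hN0⟩ := many_dd (min ε 1) (lt_min hε one_pos)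
  set η : ℝ := min ε 1 with hη
  have hη0 : 0 < η := lt_min hε one_pos
  have hη1 : η ≤ 1 := min_le_right _ _
  have hη2 : η ≤ ε := min_le_left _ _
  -- `N = ⌊(X / 12636) ^ (1/5)⌋`
  have t1 : Tendsto (fun X : ℝ => (X / 12636) ^ (1 / 5 : ℝ)) atTop atTop :=
    (tendsto_rpow_atTop (by norm_num)).comp (tendsto_id.atTop_div_const (by norm_num))
  have e1 := t1.eventually_ge_atTop (max (N0 + 1 : ℝ) 2)
  have e2 : ∀ᶠ X : ℝ in atTop, (4 * 12636 : ℝ) ≤ X ^ (ε - η / 5) :=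
    (tendsto_rpow_atTop (by linarith)).eventually_ge_atTop _
  obtain ⟨X0, hX0⟩ := eventually_atTop.1 (e1.and (e2.and (eventually_ge_atTop 1)))
  refine ⟨X0, fun X hX => ?_⟩
  obtain ⟨f1, f2, f3⟩ := hX0 X hX
  have hXpos : 0 < X := by linarith
  set y := (X / 12636) ^ (1 / 5 : ℝ) with hy
  have hy0 : 0 < y := by positivity
  have hy5 : y ^ 5 = X / 12636 := by
    rw [hy, ← Real.rpow_natCast, ← Real.rpow_mul (by positivity)]
    norm_num
  set N := ⌊y⌋₊ with hN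
  have hN1 : (N : ℝ) ≤ y := Nat.floor_le hy0.le
  have hN2 : y < N + 1 := Nat.lt_floor_add_one y
  have hy2 : 2 ≤ y := (le_max_right _ _).trans f1
  have hNy : y / 2 ≤ N := by linarith
  have hNN : N0 ≤ N := by
    have h1 : (N0 : ℝ) + 1 ≤ y := (le_max_left _ _).trans f1
    have h2 : (N0 : ℝ) < N + 1 := by linarith
    have h3 : N0 < N + 1 := by exact_mod_cast h2
    omega
  obtain ⟨D, hD1, hD2⟩ := hN0 N hNN
  refine ⟨D, ?_, ?_⟩
  · intro d hd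
    obtain ⟨n, u, v, h1, h2, h3⟩ := hD1 d hd
    refine ⟨n, u, v, h1, ?_, h3⟩
    have h4 := (arith h1).2.2.1
    rw [h3] at h4
    calc (d : ℝ) ≤ 52 * (n : ℝ) ^ 5 := by exact_mod_cast h4
      _ ≤ 52 * (3 * y) ^ 5 := by
          have : (n : ℝ) ≤ 3 * y := by
            have : (n : ℝ) ≤ 3 * N := by exact_mod_cast h2
            linarith
          gcongr
      _ = 12636 * y ^ 5 := by ring
      _ = X := by rw [hy5]; field_simp
  · refine le_trans ?_ hD2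
    calc X ^ (2 / 5 - ε) ≤ (y / 2) ^ (2 - η) := ?_
      _ ≤ (N : ℝ) ^ (2 - η) := by
          apply Real.rpow_le_rpow (by positivity) hNy (by linarith)
    have h1 : (y / 2) ^ (2 - η) = y ^ (2 - η) / 2 ^ (2 - η) := Real.div_rpow hy0.le (by norm_num) _
    have h2 : y ^ (2 - η) = X ^ ((2 - η) / 5) / 12636 ^ ((2 - η) / 5) := by
      rw [hy, ← Real.rpow_mul (by positivity), Real.div_rpow hXpos.le (by norm_num)]
      congr 2 <;> ring
    have h3 : (2 : ℝ) ^ (2 - η) ≤ 4 := by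
      calc (2 : ℝ) ^ (2 - η) ≤ 2 ^ (2 : ℝ) :=
            Real.rpow_le_rpow_of_exponent_le (by norm_num) (by linarith)
        _ = 4 := by norm_num
    have h4 : (12636 : ℝ) ^ ((2 - η) / 5) ≤ 12636 := by
      calc (12636 : ℝ) ^ ((2 - η) / 5) ≤ 12636 ^ (1 : ℝ) :=
            Real.rpow_le_rpow_of_exponent_le (by norm_num) (by linarith)
        _ = 12636 := by norm_num
    rw [h1, h2, div_div, le_div_iff₀ (by positivity)]
    calc X ^ (2 / 5 - ε) * (12636 ^ ((2 - η) / 5) * 2 ^ (2 - η)) ≤ X ^ (2 / 5 - ε) * (12636 * 4) := by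
          gcongr
      _ ≤ X ^ (2 / 5 - ε) * X ^ (ε - η / 5) := by
          gcongr
          linarith
      _ = X ^ ((2 - η) / 5) := by
          rw [← Real.rpow_add hXpos]
          congr 1; ring

end Pool.Agent.H82.CR
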