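import Mathlib

set_option autoImplicit false

/-! # Representations by `n² + n m + m²` -/

namespace Pool.Agent.H82.CR

open Finset

/-- two coprime representations with the same gcd are equal -/
lemma rep_inj {t : ℕ} (ht : 1 < t) {n0 m0 n1 m1 n2 m2 : ℕ}
    (h0 : n0 ^ 2 + n0 * m0 + m0 ^ 2 = t) (c0 : Nat.Coprime n0 m0)
    (h1 : n1 ^ 2 + n1 * m1 + m1 ^ 2 = t) (c1 : Nat.Coprime n1 m1)
    (h2 : n2 ^ 2 + n2 * m2 + m2 ^ 2 = t) (c2 : Nat.Coprime n2 m2)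
    (hg : Int.gcd ((n1 : ℤ) * m0 - m1 * n0) t = Int.gcd ((n2 : ℤ) * m0 - m2 * n0) t) :
    n1 = n2 ∧ m1 = m2 := by
  have H0 : (n0 : ℤ) ^ 2 + n0 * m0 + (m0 : ℤ) ^ 2 = t := by exact_mod_cast h0
  have H1 : (n1 : ℤ) ^ 2 + n1 * m1 + (m1 : ℤ) ^ 2 = t := by exact_mod_cast h1
  have H2 : (n2 : ℤ) ^ 2 + n2 * m2 + (m2 : ℤ) ^ 2 = t := by exact_mod_cast h2
  have htI : (0 : ℤ) < t := by exact_mod_cast (by omega : 0 < t)
  -- a prime dividing `t` does not divide `m`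
  have hpm : ∀ (n m : ℕ), n ^ 2 + n * m + m ^ 2 = t → Nat.Coprime n m → ∀ p : ℤ, Prime p →
      p ∣ (t : ℤ) → ¬ p ∣ (m : ℤ) := by
    intro n m h c p hp hpt hpm
    have H : (n : ℤ) ^ 2 + n * m + (m : ℤ) ^ 2 = t := by exact_mod_cast h
    have h3 : p ∣ (n : ℤ) ^ 2 := by
      have : (n : ℤ) ^ 2 = t - m * (n + m) := by rw [← H]; ring
      rw [this]; exact dvd_sub hpt (hpm.mul_right _)
    have h4 := hp.dvd_of_dvd_pow h3
    have h5 : IsCoprime (n : ℤ) (m : ℤ) := Nat.isCoprime_iff_coprime.2 c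
    exact hp.not_isUnit (h5.isUnit_of_dvd' h4 hpm)
  have cm0 : IsCoprime (t : ℤ) (m0 : ℤ) := by
    rw [Int.isCoprime_iff_gcd_eq_one]
    by_contra hne
    obtain ⟨p, hp, hpd⟩ := Nat.exists_prime_and_dvd hne
    have h1 : (p : ℤ) ∣ (Int.gcd (t : ℤ) (m0 : ℤ) : ℤ) := by exact_mod_cast hpd
    exact hpm n0 m0 h0 c0 p (Nat.prime_iff_prime_int.1 hp) (h1.trans (Int.gcd_dvd_left ..))
      (h1.trans (Int.gcd_dvd_right ..))
  set g : ℕ := Int.gcd ((n1 : ℤ) * m0 - m1 * n0) t with hgdef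
  have hgt : (g : ℤ) ∣ (t : ℤ) := Int.gcd_dvd_right ..
  have hg0 : (g : ℤ) ≠ 0 := by
    intro h; rw [h] at hgt; exact htI.ne' (zero_dvd_iff.1 hgt)
  obtain ⟨t', ht'⟩ := hgt
  -- `t' ∣ B`
  have hB : ∀ (n m : ℕ), (n : ℤ) ^ 2 + n * m + (m : ℤ) ^ 2 = t →
      Int.gcd ((n : ℤ) * m0 - m * n0) t = g →
      (g : ℤ) ∣ ((n : ℤ) * m0 - m * n0) ∧ t' ∣ ((n : ℤ) * m0 + m * n0 + m * m0) := by
    intro n m H hgg
    have hd : (g : ℤ) ∣ ((n : ℤ) * m0 - m * n0) := by rw [← hgg]; exact Int.gcd_dvd_left ..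
    refine ⟨hd, ?_⟩
    obtain ⟨A', hA'⟩ := hd
    have hcop : IsCoprime t' A' := by
      rw [Int.isCoprime_iff_gcd_eq_one, Int.gcd_comm]
      have h5 : Int.gcd ((g : ℤ) * A') ((g : ℤ) * t') = g := by rw [← hA', ← ht']; exact hgg
      rw [Int.gcd_mul_left, Int.natAbs_natCast] at h5
      have h6 : 0 < g := by
        rcases Nat.eq_zero_or_pos g with h | h
        · exact absurd (by exact_mod_cast h) hg0
        · exact h
      exact Nat.eq_of_mul_eq_mul_left h6 (by rw [h5, mul_one])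
    have h6 : (t : ℤ) ∣ ((n : ℤ) * m0 - m * n0) * ((n : ℤ) * m0 + m * n0 + m * m0) := by
      refine ⟨(m0 : ℤ) ^ 2 - m ^ 2, ?_⟩
      have e1 : ((n : ℤ) * m0 - m * n0) * ((n : ℤ) * m0 + m * n0 + m * m0) =
        (m0 : ℤ) ^ 2 * ((n : ℤ) ^ 2 + n * m) - (m : ℤ) ^ 2 * ((n0 : ℤ) ^ 2 + n0 * m0) := by ring
      rw [e1]
      linear_combination (m0 : ℤ) ^ 2 * H - (m : ℤ) ^ 2 * H0
    rw [ht', hA', mul_assoc] at h6
    have h7 := Int.dvd_of_mul_dvd_mul_left hg0 h6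
    exact hcop.dvd_of_dvd_mul_left h7
  obtain ⟨a1, b1⟩ := hB n1 m1 H1 rfl
  obtain ⟨a2, b2⟩ := hB n2 m2 H2 hg.symm
  -- `C = n1 m2 - m1 n2`
  have hgC : (g : ℤ) ∣ ((n1 : ℤ) * m2 - m1 * n2) := by
    have h3 : (g : ℤ) ∣ (m0 : ℤ) * ((n1 : ℤ) * m2 - m1 * n2) := by
      have e : (m0 : ℤ) * ((n1 : ℤ) * m2 - m1 * n2) =
        ((n1 : ℤ) * m0 - m1 * n0) * m2 - ((n2 : ℤ) * m0 - m2 * n0) * m1 := by ring
      rw [e]
      exact dvd_sub (a1.mul_right _) (a2.mul_right _)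
    have h4 : IsCoprime (g : ℤ) (m0 : ℤ) := cm0.of_isCoprime_of_dvd_left ⟨t', ht'⟩
    exact h4.dvd_of_dvd_mul_left h3
  have htC : t' ∣ ((n1 : ℤ) * m2 - m1 * n2) := by
    have h3 : t' ∣ (m0 : ℤ) * ((n1 : ℤ) * m2 - m1 * n2) := by
      have e : (m0 : ℤ) * ((n1 : ℤ) * m2 - m1 * n2) =
        ((n1 : ℤ) * m0 + m1 * n0 + m1 * m0) * m2 - ((n2 : ℤ) * m0 + m2 * n0 + m2 * m0) * m1 := by ring
      rw [e]
      exact dvd_sub (b1.mul_right _) (b2.mul_right _)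
    have h4 : IsCoprime t' (m0 : ℤ) := cm0.of_isCoprime_of_dvd_left ⟨g, by rw [ht']; ring⟩
    exact h4.dvd_of_dvd_mul_left h3
  have hcop : IsCoprime (g : ℤ) t' := by
    rw [Int.isCoprime_iff_gcd_eq_one]
    by_contra hne
    obtain ⟨p, hp, hpd⟩ := Nat.exists_prime_and_dvd hne
    have hp' : Prime (p : ℤ) := Nat.prime_iff_prime_int.1 hp
    have h1' : (p : ℤ) ∣ (Int.gcd (g : ℤ) t' : ℤ) := by exact_mod_cast hpd
    have pg : (p : ℤ) ∣ g := h1'.trans (Int.gcd_dvd_left ..)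
    have pt' : (p : ℤ) ∣ t' := h1'.trans (Int.gcd_dvd_right ..)
    have pt : (p : ℤ) ∣ t := by rw [ht']; exact pg.mul_right _
    have hpp : (p : ℤ) * p ∣ t := by rw [ht']; exact mul_dvd_mul pg pt'
    have hm1 := hpm n1 m1 h1 c1 p hp' pt
    have hm0 := hpm n0 m0 h0 c0 p hp' pt
    have h3 : (p : ℤ) ∣ (m0 : ℤ) * (2 * n1 + m1) := by
      have e : (m0 : ℤ) * (2 * n1 + m1) =
        ((n1 : ℤ) * m0 - m1 * n0) + ((n1 : ℤ) * m0 + m1 * n0 + m1 * m0) := by ring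
      rw [e]
      exact dvd_add (pg.trans a1) (pt'.trans b1)
    have h4 : (p : ℤ) ∣ 2 * n1 + m1 := (hp'.dvd_or_dvd h3).resolve_left hm0
    have h5 : (p : ℤ) * p ∣ 3 * (m1 : ℤ) ^ 2 := by
      have e : 3 * (m1 : ℤ) ^ 2 = 4 * t - (2 * n1 + m1) * (2 * n1 + m1) := by rw [← H1]; ring
      rw [e]
      exact dvd_sub (hpp.mul_left _) (mul_dvd_mul h4 h4)
    have h6 : (p : ℤ) ∣ 3 := by
      rcases hp'.dvd_or_dvd ((dvd_mul_right (p : ℤ) p).trans h5) with h7 | h7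
      · exact h7
      · exact absurd (hp'.dvd_of_dvd_pow h7) hm1
    have h7 : p = 3 := by
      have h8 : p ∣ 3 := by exact_mod_cast h6
      exact (Nat.prime_dvd_prime_iff_eq hp Nat.prime_three).1 h8
    rw [h7] at h5
    have h8 : (3 : ℤ) ∣ (m1 : ℤ) ^ 2 := by
      have h9 : (3 : ℤ) * 3 ∣ 3 * (m1 : ℤ) ^ 2 := by exact_mod_cast h5
      exact Int.dvd_of_mul_dvd_mul_left (by norm_num) h9
    have h9 : (3 : ℤ) ∣ m1 := Int.prime_three.dvd_of_dvd_pow h8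
    apply hm1
    rw [h7]; exact_mod_cast h9
  have hC : (t : ℤ) ∣ ((n1 : ℤ) * m2 - m1 * n2) := by
    rw [ht']; exact hcop.mul_dvd hgC htC
  have hlt : ∀ a b a' b' : ℤ, 0 ≤ a → 0 ≤ b → 0 ≤ a' → 0 ≤ b' → a ^ 2 + a * b + b ^ 2 = t →
      a' ^ 2 + a' * b' + b' ^ 2 = t → 0 < b → a * b' < t := by
    intro a b a' b' ha hb ha' hb' e1 e2 hb0
    have h3 : a ^ 2 < t := by nlinarith
    have h4 : b' ^ 2 ≤ t := by nlinarith
    nlinarith [sq_nonneg (a - b')]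
  have hpos : ∀ n m : ℕ, n ^ 2 + n * m + m ^ 2 = t → Nat.Coprime n m → t ≠ 1 → 0 < n ∧ 0 < m := by
    intro n m h c h1
    constructor
    · rcases Nat.eq_zero_or_pos n with h2 | h2
      · rw [h2, Nat.coprime_zero_left] at c
        rw [h2, c] at h; omega
      · exact h2
    · rcases Nat.eq_zero_or_pos m with h2 | h2
      · rw [h2, Nat.coprime_zero_right] at c
        rw [h2, c] at h; omega
      · exact h2
  have ht1 : t ≠ 1 := by omega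
  obtain ⟨p1, q1⟩ := hpos _ _ h1 c1 ht1
  obtain ⟨p2, q2⟩ := hpos _ _ h2 c2 ht1
  have l1 : (n1 : ℤ) * m2 < t := hlt n1 m1 n2 m2 (by positivity) (by positivity) (by positivity)
    (by positivity) H1 H2 (by exact_mod_cast q1)
  have l2 : (m1 : ℤ) * n2 < t := hlt m1 n1 m2 n2 (by positivity) (by positivity) (by positivity)
    (by positivity) (by rw [← H1]; ring) (by rw [← H2]; ring) (by exact_mod_cast p1)
  have l3 : (0 : ℤ) ≤ (n1 : ℤ) * m2 := by positivity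
  have l4 : (0 : ℤ) ≤ (m1 : ℤ) * n2 := by positivity
  have hC0 : (n1 : ℤ) * m2 - m1 * n2 = 0 := by
    apply Int.eq_zero_of_abs_lt_dvd hC
    rw [abs_lt]
    constructor <;> linarith
  have hC1 : n1 * m2 = m1 * n2 := by
    have : (n1 : ℤ) * m2 = m1 * n2 := by linarith
    exact_mod_cast this
  have d1 : n1 ∣ n2 := by
    apply c1.dvd_of_dvd_mul_left
    rw [← hC1]; exact dvd_mul_right _ _
  have d2 : n2 ∣ n1 := by
    apply c2.dvd_of_dvd_mul_right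
    rw [hC1]; exact dvd_mul_left _ _
  have e1 : n1 = n2 := Nat.dvd_antisymm d1 d2
  refine ⟨e1, ?_⟩
  rw [e1, mul_comm m1 n2] at hC1
  exact (Nat.eq_of_mul_eq_mul_left p2 hC1).symm

lemma rep_card {t : ℕ} (ht : 1 < t) (S : Finset (ℕ × ℕ))
    (hS : ∀ x ∈ S, x.1 ^ 2 + x.1 * x.2 + x.2 ^ 2 = t ∧ Nat.Coprime x.1 x.2) :
    S.card ≤ t.divisors.card := by
  rcases S.eq_empty_or_nonempty with rfl | ⟨x0, hx0⟩
  · simp
  refine card_le_card_of_injOn (fun x => Int.gcd ((x.1 : ℤ) * x0.2 - x.2 * x0.1) t) ?_ ?_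
  · intro x _
    have h1 : ((Int.gcd ((x.1 : ℤ) * x0.2 - x.2 * x0.1) t : ℕ) : ℤ) ∣ (t : ℤ) := Int.gcd_dvd_right ..
    simp only [coe_sort_coe, mem_coe, Nat.mem_divisors]
    exact ⟨by exact_mod_cast h1, by omega⟩
  · intro x hx y hy hxy
    obtain ⟨a1, a2⟩ := hS x hx
    obtain ⟨b1, b2⟩ := hS y hy
    obtain ⟨c1, c2⟩ := hS x0 hx0
    obtain ⟨e1, e2⟩ := rep_inj ht c1 c2 a1 a2 b1 b2 hxy
    exact Prod.ext e1 e2

/-- `n² + n m + m²` with `m = n + 2 u v` -/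
def EE (n u v : ℕ) : ℕ := 3 * n ^ 2 + 6 * n * (u * v) + 4 * (u * v) ^ 2

lemma EE_eq (n u v : ℕ) : n ^ 2 + n * (n + 2 * (u * v)) + (n + 2 * (u * v)) ^ 2 = EE n u v := by
  unfold EE; ring

lemma triple_card {t : ℕ} (ht : 1 < t) (M : ℕ) (S : Finset (ℕ × ℕ × ℕ))
    (hS : ∀ x ∈ S, EE x.1 x.2.1 x.2.2 = t ∧ Nat.Coprime x.1 (2 * (x.2.1 * x.2.2)) ∧
      0 < x.2.1 * x.2.2 ∧ (x.2.1 * x.2.2).divisors.card ≤ M) :
    S.card ≤ M * t.divisors.card := by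
  have h1 := card_le_mul_card_image (f := fun x : ℕ × ℕ × ℕ => (x.1, x.1 + 2 * (x.2.1 * x.2.2))) S M ?_
  · refine h1.trans (Nat.mul_le_mul_left _ ?_)
    apply rep_card ht
    intro y hy
    obtain ⟨x, hx, rfl⟩ := mem_image.1 hy
    obtain ⟨a1, a2, a3, a4⟩ := hS x hx
    refine ⟨by rw [← a1, ← EE_eq], ?_⟩
    simpa using a2
  · intro y hy
    obtain ⟨x, hx, rfl⟩ := mem_image.1 hy
    obtain ⟨a1, a2, a3, a4⟩ := hS x hx
    refine le_trans ?_ a4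
    refine card_le_card_of_injOn (fun z => z.2.1) ?_ ?_
    · intro z hz
      simp only [coe_filter, Set.mem_setOf_eq, Prod.mk.injEq] at hz
      obtain ⟨-, hz1, hz2⟩ := hz
      have h3 : z.2.1 * z.2.2 = x.2.1 * x.2.2 := by rw [hz1] at hz2; omega
      simp only [mem_coe, Nat.mem_divisors]
      exact ⟨⟨z.2.2, h3.symm⟩, by omega⟩
    · intro z hz z' hz' hzz
      simp only [coe_filter, Set.mem_setOf_eq, Prod.mk.injEq] at hz hz'
      obtain ⟨-, hz1, hz2⟩ := hz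
      obtain ⟨-, hz1', hz2'⟩ := hz'
      have h3 : z.2.1 * z.2.2 = x.2.1 * x.2.2 := by rw [hz1] at hz2; omega
      have h4 : z'.2.1 * z'.2.2 = x.2.1 * x.2.2 := by rw [hz1'] at hz2'; omega
      have h5 : z.2.1 = z'.2.1 := hzz
      have h6 : 0 < z.2.1 := by
        rcases Nat.eq_zero_or_pos z.2.1 with h | h
        · rw [h, zero_mul] at h3; omega
        · exact h
      have h7 : z.2.2 = z'.2.2 := by
        apply Nat.eq_of_mul_eq_mul_left h6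
        rw [h3, h5, h4]
      exact Prod.ext (hz1.trans hz1'.symm) (Prod.ext h5 h7)

end Pool.Agent.H82.CR
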