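import Pool.Agent.H82.CR.A2
import Pool.Agent.H82.CR.R1

set_option autoImplicit false

/-! # The discriminants -/

namespace Pool.Agent.H82.CR

/-- `4 n³ - E z²` with `z = 2 v - u` -/
def FF (n u v : ℕ) : ℤ := 4 * (n : ℤ) ^ 3 - EE n u v * (2 * v - u) ^ 2

/-- the squarefree part -/
noncomputable def sqf (k : ℕ) : ℕ := (Nat.sq_mul_squarefree k).choose

lemma sqf_spec (k : ℕ) : ∃ f : ℕ, f ^ 2 * sqf k = k ∧ Squarefree (sqf k) :=
  (Nat.sq_mul_squarefree k).choose_spec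

/-- the discriminant (up to sign) -/
noncomputable def dd (n u v : ℕ) : ℕ := EE n u v * sqf (FF n u v).toNat

structure Good (n u v : ℕ) : Prop where
  on : Odd n
  ou : Odd u
  ov : Odd v
  hn : 1 < n
  huv : u * v ≤ n
  hz : 13 * (2 * (v : ℤ) - u) ^ 2 < 4 * n
  c1 : IsCoprime (n : ℤ) (2 * (u : ℤ) * v)
  c2 : IsCoprime (n : ℤ) (2 * (v : ℤ) - u)
  c3 : IsCoprime ((n : ℤ) + 2 * u * v) (2 * (v : ℤ) + u)
  sq : Squarefree (EE n u v)

lemma EE_le {n u v : ℕ} (h : u * v ≤ n) : EE n u v ≤ 13 * n ^ 2 := by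
  unfold EE
  nlinarith [Nat.zero_le (u * v)]

lemma FF_pos {n u v : ℕ} (h : Good n u v) : 0 < FF n u v := by
  unfold FF
  have h1 : (EE n u v : ℤ) ≤ 13 * n ^ 2 := by exact_mod_cast EE_le h.huv
  have h2 := h.hz
  have h3 : (0 : ℤ) < (n : ℤ) := by have := h.hn; omega
  have h4 : (EE n u v : ℤ) * (2 * v - u) ^ 2 ≤ 13 * n ^ 2 * (2 * v - u) ^ 2 :=
    mul_le_mul_of_nonneg_right h1 (sq_nonneg _)
  have h5 : 13 * (n : ℤ) ^ 2 * (2 * v - u) ^ 2 < 4 * (n : ℤ) ^ 3 := by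
    calc 13 * (n : ℤ) ^ 2 * (2 * v - u) ^ 2 = (n : ℤ) ^ 2 * (13 * (2 * v - u) ^ 2) := by ring
      _ < (n : ℤ) ^ 2 * (4 * n) := by
          apply mul_lt_mul_of_pos_left h2; positivity
      _ = 4 * (n : ℤ) ^ 3 := by ring
  linarith

lemma EE_mod {n u v : ℕ} (h1 : Odd n) (h2 : Odd u) (h3 : Odd v) : EE n u v % 4 = 1 := by
  obtain ⟨a, ha⟩ := h1
  obtain ⟨b, hb⟩ := h2
  obtain ⟨c, hc⟩ := h3
  unfold EE
  have : 3 * n ^ 2 + 6 * n * (u * v) + 4 * (u * v) ^ 2 =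
      4 * (3 * a ^ 2 + 3 * a + 2 * 1 + (u * v) ^ 2 + 3 * (4 * a * b * c + 2 * a * b + 2 * a * c +
        2 * b * c + a + b + c)) + 1 := by
    rw [ha, hb, hc]; ring
  omega

lemma FF_mod {n u v : ℕ} (h1 : Odd n) (h2 : Odd u) (h3 : Odd v) : FF n u v % 4 = 3 := by
  have h4 := EE_mod h1 h2 h3
  obtain ⟨b, hb⟩ := h2
  unfold FF
  have h5 : (EE n u v : ℤ) % 4 = 1 := by exact_mod_cast congrArg (Nat.cast : ℕ → ℤ) h4
  obtain ⟨q, hq⟩ : ∃ q : ℤ, (EE n u v : ℤ) = 4 * q + 1 := ⟨(EE n u v : ℤ) / 4, by omega⟩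
  have h6 : ((2 * (v : ℤ) - u) ^ 2) = 4 * ((v - b) ^ 2 - (v - b)) + 1 := by
    rw [hb]; push_cast; ring
  rw [hq, h6]
  have h7 : 4 * (n : ℤ) ^ 3 - (4 * q + 1) * (4 * ((v - b) ^ 2 - (v - b)) + 1) =
      4 * ((n : ℤ) ^ 3 - q * (4 * ((v - b) ^ 2 - (v - b)) + 1) - ((v - b) ^ 2 - (v - b)) - 1) + 3 := by
    ring
  omega

theorem arith {n u v : ℕ} (h : Good n u v) :
    Squarefree (dd n u v) ∧ dd n u v % 4 = 3 ∧ dd n u v ≤ 52 * n ^ 5 ∧ EE n u v ∣ dd n u v ∧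
    ∃ f : ℕ, Dat n ((n : ℤ) + 2 * u * v) (2 * v - u) (2 * v + u) u v (EE n u v)
      (sqf (FF n u v).toNat) (dd n u v) f := by
  obtain ⟨f, hf1, hf2⟩ := sqf_spec (FF n u v).toNat
  set e := sqf (FF n u v).toNat with he
  have hF := FF_pos h
  have hFe : (f : ℤ) ^ 2 * e = FF n u v := by
    have h1 : ((f ^ 2 * e : ℕ) : ℤ) = ((FF n u v).toNat : ℤ) := by rw [hf1]
    rw [Int.toNat_of_nonneg hF.le] at h1
    exact_mod_cast h1
  have hn1 := h.hn
  -- coprimality of `E` and `F`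
  have hcop : Nat.Coprime (EE n u v) e := by
    rw [← Nat.isCoprime_iff_coprime]
    apply coprime_of_prime
    intro p hp hpE hpe
    have hp' : Prime (p : ℤ) := Nat.prime_iff_prime_int.1 hp
    have h1 : (p : ℤ) ∣ 4 * (n : ℤ) ^ 3 := by
      have h2 : 4 * (n : ℤ) ^ 3 = (f : ℤ) ^ 2 * e + EE n u v * (2 * v - u) ^ 2 := by
        rw [hFe]; unfold FF; ring
      rw [h2]
      exact dvd_add (hpe.mul_left _) (hpE.mul_right _)
    have hodd : ¬ (p : ℤ) ∣ 4 := by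
      intro h4
      have h5 : (p : ℤ) ∣ 2 := by
        have : (4 : ℤ) = 2 ^ 2 := by norm_num
        rw [this] at h4; exact hp'.dvd_of_dvd_pow h4
      have h6 : p ∣ 2 := by exact_mod_cast h5
      have h7 : p = 2 := (Nat.prime_dvd_prime_iff_eq hp Nat.prime_two).1 h6
      have h8 := EE_mod h.on h.ou h.ov
      have h9 : p ∣ EE n u v := by exact_mod_cast hpE
      rw [h7] at h9
      omega
    have hpn : (p : ℤ) ∣ n := by
      rcases hp'.dvd_or_dvd h1 with h2 | h2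
      · exact absurd h2 hodd
      · exact hp'.dvd_of_dvd_pow h2
    have h3 : (p : ℤ) ∣ (2 * (u : ℤ) * v) ^ 2 := by
      have h4 : (2 * (u : ℤ) * v) ^ 2 = EE n u v - n * (3 * n + 6 * (u * v)) := by
        unfold EE; push_cast; ring
      rw [h4]
      exact dvd_sub hpE (hpn.mul_right _)
    have h4 := hp'.dvd_of_dvd_pow h3
    exact hp'.not_isUnit (h.c1.isUnit_of_dvd' hpn h4)
  have hmod : e % 4 = 3 := by
    have h1 := FF_mod h.on h.ou h.ov
    rw [← hFe] at h1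
    have h2 : f % 2 = 1 := by
      by_contra h3
      have h4 : f % 2 = 0 := by omega
      obtain ⟨g, hg⟩ : 2 ∣ f := Nat.dvd_of_mod_eq_zero h4
      have h5 : (f : ℤ) ^ 2 * e = 4 * ((g : ℤ) ^ 2 * e) := by rw [hg]; push_cast; ring
      omega
    obtain ⟨g, hg⟩ : ∃ g, f = 2 * g + 1 := ⟨f / 2, by omega⟩
    have h5 : (f : ℤ) ^ 2 * e = 4 * (((g : ℤ) ^ 2 + g) * e) + e := by rw [hg]; push_cast; ring
    omega
  have hdd : dd n u v = EE n u v * e := rfl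
  have hE1 := EE_mod h.on h.ou h.ov
  have he3 : 3 ≤ e := by omega
  have hd4 : dd n u v % 4 = 3 := by
    rw [hdd, Nat.mul_mod, hE1, hmod]
  have heF : (e : ℤ) ≤ FF n u v := by
    rw [← hFe]
    have hf0 : 0 < f := by
      rcases Nat.eq_zero_or_pos f with h0 | h0
      · rw [h0] at hFe; simp at hFe; omega
      · exact h0
    have : (1 : ℤ) ≤ (f : ℤ) ^ 2 := by
      have : (1 : ℤ) ≤ f := by exact_mod_cast hf0
      nlinarith
    nlinarith [Int.natCast_nonneg e]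
  have hF4 : FF n u v ≤ 4 * (n : ℤ) ^ 3 := by
    unfold FF
    have : (0 : ℤ) ≤ (EE n u v : ℤ) * (2 * v - u) ^ 2 := by positivity
    linarith
  have he4 : e ≤ 4 * n ^ 3 := by
    have := heF.trans hF4
    exact_mod_cast this
  have hle : dd n u v ≤ 52 * n ^ 5 := by
    rw [hdd]
    calc EE n u v * e ≤ (13 * n ^ 2) * (4 * n ^ 3) := Nat.mul_le_mul (EE_le h.huv) he4
      _ = 52 * n ^ 5 := by ring
  refine ⟨?_, hd4, hle, ⟨e, rfl⟩, f, ?_⟩
  · rw [hdd, Nat.squarefree_mul hcop]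
    exact ⟨h.sq, hf2⟩
  have hnI : (1 : ℤ) < n := by exact_mod_cast hn1
  have huv0 : (0 : ℤ) ≤ (u : ℤ) * v := by positivity
  have huvI : (u : ℤ) * v ≤ n := by exact_mod_cast h.huv
  have hdE : 3 * (EE n u v : ℤ) ≤ (dd n u v : ℤ) := by
    have : 3 * EE n u v ≤ dd n u v := by
      rw [hdd, mul_comm 3]; exact Nat.mul_le_mul_left _ he3
    exact_mod_cast this
  have hEI : (EE n u v : ℤ) = 3 * n ^ 2 + 6 * n * (u * v) + 4 * (u * v) ^ 2 := by
    unfold EE; push_cast; ring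
  exact {
    hm := rfl
    hz := rfl
    hw := rfl
    hE := by rw [hEI]; ring
    hed := by
      have h1 : (e : ℤ) * (f : ℤ) ^ 2 = FF n u v := by rw [← hFe]; ring
      rw [h1]; unfold FF; ring
    hd := by rw [hdd]; push_cast; ring
    hn := hnI
    hm1 := by nlinarith
    cnm := by
      have h1 := h.c1
      have h2 : (n : ℤ) + 2 * u * v = 2 * (u : ℤ) * v + n * 1 := by ring
      rw [h2]
      exact h1.add_mul_left_right 1
    cnz := h.c2
    cmw := h.c3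
    h4n := by
      have h1 : 4 * (n : ℤ) ^ 2 < 3 * (EE n u v : ℤ) := by
        rw [hEI]; nlinarith
      linarith
    h4m := by
      have h1 : 4 * ((n : ℤ) + 2 * u * v) ^ 2 < 3 * (EE n u v : ℤ) := by
        rw [hEI]; nlinarith
      linarith }

end Pool.Agent.H82.CR
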