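import Pool.Agent.H82.CR.R1

set_option autoImplicit false

/-! # The sieve for a fixed prime `n` -/

namespace Pool.Agent.H82.CR

open Finset

/-- elements of a residue class -/
lemma card_class (C q : ℕ) (hq : 0 < q) (T : Finset ℕ) (hT : ∀ c ∈ T, c < C)
    (h : ∀ c ∈ T, ∀ c' ∈ T, (q : ℤ) ∣ (c : ℤ) - c') : T.card ≤ C / q + 1 := by
  have h1 : T.card ≤ (range (C / q + 1)).card := by
    refine card_le_card_of_injOn (fun c => c / q) ?_ ?_
    · intro c hc
      simp only [mem_coe, mem_range] at hc ⊢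
      exact Nat.lt_succ_of_le (Nat.div_le_div_right (hT c hc).le)
    · intro c hc c' hc' hcc
      have h2 := h c hc c' hc'
      have h3 : c / q = c' / q := hcc
      have h4 : c % q = c' % q := by
        have h5 : (c : ℤ) % q = (c' : ℤ) % q :=
          Int.emod_eq_emod_iff_emod_sub_eq_zero.2 (Int.emod_eq_zero_of_dvd h2)
        exact_mod_cast h5
      rw [← Nat.div_add_mod c q, ← Nat.div_add_mod c' q, h3, h4]
  simpa using h1

/-- a linear congruence -/
lemma card_lin (C q : ℕ) (hq : 0 < q) (α β : ℤ) (ha : IsCoprime (q : ℤ) α) :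
    ((range C).filter (fun c : ℕ => (q : ℤ) ∣ α * c + β)).card ≤ C / q + 1 := by
  apply card_class C q hq
  · intro c hc; exact mem_range.1 (mem_filter.1 hc).1
  · intro c hc c' hc'
    have h1 := (mem_filter.1 hc).2
    have h2 := (mem_filter.1 hc').2
    have h3 : (q : ℤ) ∣ α * ((c : ℤ) - c') := by
      have : α * ((c : ℤ) - c') = (α * c + β) - (α * c' + β) := by ring
      rw [this]; exact dvd_sub h1 h2
    exact ha.dvd_of_dvd_mul_left h3

/-- two residue classes -/
lemma card_two (C q : ℕ) (hq : 0 < q) (T : Finset ℕ) (hT : ∀ c ∈ T, c < C) (α : ℤ)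
    (ha : IsCoprime (q : ℤ) α)
    (h : ∀ c0 ∈ T, ∃ β : ℤ, ∀ c ∈ T, (q : ℤ) ∣ (c : ℤ) - c0 ∨ (q : ℤ) ∣ α * c + β) :
    T.card ≤ 2 * (C / q + 1) := by
  rcases T.eq_empty_or_nonempty with rfl | ⟨c0, hc0⟩
  · simp
  obtain ⟨β, hβ⟩ := h c0 hc0
  have hsub : T ⊆ ((range C).filter (fun c : ℕ => (q : ℤ) ∣ 1 * (c : ℤ) + (-c0))) ∪
      ((range C).filter (fun c : ℕ => (q : ℤ) ∣ α * c + β)) := by
    intro c hc
    rw [mem_union, mem_filter, mem_filter, mem_range]
    rcases hβ c hc with h1 | h1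
    · left; exact ⟨hT c hc, by rw [one_mul, ← sub_eq_add_neg]; exact h1⟩
    · right; exact ⟨hT c hc, h1⟩
  calc T.card ≤ _ := card_le_card hsub
    _ ≤ _ := card_union_le _ _
    _ ≤ (C / q + 1) + (C / q + 1) := Nat.add_le_add (card_lin C q hq 1 (-c0) isCoprime_one_right)
        (card_lin C q hq α β ha)
    _ = 2 * (C / q + 1) := by ring

/-- `u` and `v` in terms of the parameters -/
def uu (b : ℕ) : ℕ := 105 * (2 * b + 1)
def vv (c : ℕ) : ℕ := 2 * c + 1

lemma badI (n p B : ℕ) (hp : p.Prime) (hp11 : 11 ≤ p) :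
    ((range B).filter (fun b : ℕ => (p : ℤ) ∣ (n : ℤ) - (uu b : ℤ) ^ 2)).card ≤ 2 * (B / p + 1) := by
  have hp' : Prime (p : ℤ) := Nat.prime_iff_prime_int.1 hp
  apply card_two B p hp.pos _ _ 1 isCoprime_one_right
  · intro b0 hb0
    refine ⟨b0 + 1, fun b hb => ?_⟩
    have h1 := (mem_filter.1 hb).2
    have h2 := (mem_filter.1 hb0).2
    have h3 : (p : ℤ) ∣ (44100 : ℤ) * (((b : ℤ) - b0) * ((b : ℤ) + (b0 + 1))) := by
      have : (44100 : ℤ) * (((b : ℤ) - b0) * ((b : ℤ) + (b0 + 1))) =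
        ((n : ℤ) - (uu b0 : ℤ) ^ 2) - ((n : ℤ) - (uu b : ℤ) ^ 2) := by
        unfold uu; push_cast; ring
      rw [this]; exact dvd_sub h2 h1
    have h4 : ¬ (p : ℤ) ∣ 44100 := by
      intro h
      have h5 : p ∣ 44100 := by exact_mod_cast h
      have h6 : (44100 : ℕ) = (2 * 3 * 5 * 7) ^ 2 := by norm_num
      rw [h6] at h5
      have h7 := hp.dvd_of_dvd_pow h5
      have h8 : p ≤ 7 := by
        rcases (hp.dvd_mul).1 h7 with h | h
        · rcases (hp.dvd_mul).1 h with h | h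
          · rcases (hp.dvd_mul).1 h with h | h
            · exact (Nat.le_of_dvd (by norm_num) h).trans (by norm_num)
            · exact (Nat.le_of_dvd (by norm_num) h).trans (by norm_num)
          · exact (Nat.le_of_dvd (by norm_num) h).trans (by norm_num)
        · exact (Nat.le_of_dvd (by norm_num) h).trans (by norm_num)
      omega
    rcases hp'.dvd_or_dvd ((hp'.dvd_or_dvd h3).resolve_left h4) with h5 | h5
    · left; exact h5
    · right; rw [one_mul]; exact h5
  · intro b hb; exact mem_range.1 (mem_filter.1 hb).1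

lemma badII (n p b C : ℕ) (hp : p.Prime) (hp11 : 11 ≤ p) (hpn : ¬ (p : ℤ) ∣ n) :
    ((range C).filter (fun c : ℕ => ((p ^ 2 : ℕ) : ℤ) ∣ (EE n (uu b) (vv c) : ℤ))).card ≤
      2 * (C / p ^ 2 + 1) := by
  have hp' : Prime (p : ℤ) := Nat.prime_iff_prime_int.1 hp
  have hp3 : ¬ (p : ℤ) ∣ 3 := by
    intro h
    have : p ∣ 3 := by exact_mod_cast h
    have := Nat.le_of_dvd (by norm_num) this
    omega
  have hp4 : ¬ (p : ℤ) ∣ 4 := by
    intro h
    have : p ∣ 4 := by exact_mod_cast h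
    have := Nat.le_of_dvd (by norm_num) this
    omega
  have h3n : ¬ (p : ℤ) ∣ 3 * (n : ℤ) ^ 2 := by
    intro h
    rcases hp'.dvd_or_dvd h with h | h
    · exact hp3 h
    · exact hpn (hp'.dvd_of_dvd_pow h)
  have hEE : ∀ c : ℕ, (EE n (uu b) (vv c) : ℤ) = 3 * (n : ℤ) ^ 2 + 6 * n * (uu b * vv c) +
      4 * (uu b * vv c) ^ 2 := by intro c; unfold EE; push_cast; ring
  have hvv : ∀ c : ℕ, (vv c : ℤ) = 2 * c + 1 := by intro c; unfold vv; push_cast; ring
  by_cases hu : (p : ℤ) ∣ (uu b : ℤ)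
  · -- no solutions
    have h0 : (range C).filter (fun c : ℕ => ((p ^ 2 : ℕ) : ℤ) ∣ (EE n (uu b) (vv c) : ℤ)) = ∅ := by
      rw [filter_eq_empty_iff]
      intro c _ h
      apply h3n
      have h1 : (p : ℤ) ∣ (EE n (uu b) (vv c) : ℤ) := by
        refine dvd_trans ?_ h
        push_cast; exact dvd_pow_self _ (by norm_num)
      have h2 : 3 * (n : ℤ) ^ 2 = (EE n (uu b) (vv c) : ℤ) - uu b * (6 * n * vv c +
          4 * (uu b * vv c ^ 2)) := by rw [hEE]; ring
      rw [h2]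
      exact dvd_sub h1 (hu.mul_right _)
    rw [h0]; simp
  have hcop : IsCoprime (((p ^ 2 : ℕ) : ℤ)) (4 * (uu b : ℤ)) := by
    push_cast
    apply IsCoprime.pow_left
    rw [hp'.irreducible.coprime_iff_not_dvd]
    intro h
    rcases hp'.dvd_or_dvd h with h | h
    · exact hp4 h
    · exact hu h
  apply card_two C (p ^ 2) (pow_pos hp.pos 2) _ _ (4 * (uu b : ℤ)) hcop
  · intro c0 hc0
    refine ⟨3 * n + 2 * uu b * (1 + vv c0), fun c hc => ?_⟩
    have h1 := (mem_filter.1 hc).2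
    have h2 := (mem_filter.1 hc0).2
    set A : ℤ := (c : ℤ) - c0 with hA
    set L : ℤ := 4 * (uu b : ℤ) * c + (3 * n + 2 * uu b * (1 + vv c0)) with hL
    have h3 : ((p ^ 2 : ℕ) : ℤ) ∣ (4 * (uu b : ℤ)) * (A * L) := by
      have : (4 * (uu b : ℤ)) * (A * L) = (EE n (uu b) (vv c) : ℤ) - (EE n (uu b) (vv c0) : ℤ) := by
        rw [hEE, hEE, hA, hL, hvv, hvv]; ring
      rw [this]; exact dvd_sub h1 h2
    have h4 : ((p ^ 2 : ℕ) : ℤ) ∣ A * L := hcop.dvd_of_dvd_mul_left h3
    push_cast at h4 ⊢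
    by_cases hpA : (p : ℤ) ∣ A
    · by_cases hpL : (p : ℤ) ∣ L
      · exfalso
        apply h3n
        have h5 : (p : ℤ) ∣ (EE n (uu b) (vv c0) : ℤ) := by
          refine dvd_trans ?_ h2
          push_cast; exact dvd_pow_self _ (by norm_num)
        -- `L = 4 u A + (3 n + 4 u v0)`
        have h6 : (p : ℤ) ∣ 3 * n + 4 * (uu b * vv c0) := by
          have : 3 * (n : ℤ) + 4 * (uu b * vv c0) = L - A * (4 * uu b) := by
            rw [hA, hL, hvv]; ring
          rw [this]; exact dvd_sub hpL (hpA.mul_right _)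
        have h7 : 3 * (n : ℤ) ^ 2 = 4 * (EE n (uu b) (vv c0) : ℤ) -
            (3 * n + 4 * (uu b * vv c0)) * (3 * n + 4 * (uu b * vv c0)) := by rw [hEE]; ring
        rw [h7]
        exact dvd_sub (h5.mul_left _) (h6.mul_right _)
      · left
        have h5 : IsCoprime ((p : ℤ) ^ 2) L := by
          apply IsCoprime.pow_left
          rw [hp'.irreducible.coprime_iff_not_dvd]; exact hpL
        exact h5.dvd_of_dvd_mul_right h4
    · right
      have h5 : IsCoprime ((p : ℤ) ^ 2) A := by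
        apply IsCoprime.pow_left
        rw [hp'.irreducible.coprime_iff_not_dvd]; exact hpA
      exact h5.dvd_of_dvd_mul_left h4
  · intro b hb; exact mem_range.1 (mem_filter.1 hb).1

end Pool.Agent.H82.CR
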