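import Pool.Agent.H82.CR.S1

set_option autoImplicit false

/-! # The sieve, summed over the small primes -/

namespace Pool.Agent.H82.CR

open Finset

lemma sum_sq_inv (R : ℕ) : ∑ q ∈ Icc 11 R, (1 : ℝ) / (q : ℝ) ^ 2 ≤ 1 / 10 := by
  rcases Nat.lt_or_ge R 10 with h | h
  · rw [Icc_eq_empty (by omega)]; norm_num
  have key : ∑ q ∈ Icc 11 R, (1 : ℝ) / (q : ℝ) ^ 2 ≤ 1 / 10 - 1 / R := by
    induction R, h using Nat.le_induction with
    | base => rw [Icc_eq_empty (by omega)]; norm_num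
    | succ R hR ih =>
      rw [sum_Icc_succ_top (by omega)]
      have hR0 : (0 : ℝ) < R := by exact_mod_cast (by omega : 0 < R)
      have h1 : (1 : ℝ) / ((R + 1 : ℕ) : ℝ) ^ 2 ≤ 1 / R - 1 / ((R + 1 : ℕ) : ℝ) := by
        push_cast
        rw [div_sub_div _ _ hR0.ne' (by positivity), div_le_div_iff₀ (by positivity) (by positivity)]
        nlinarith
      linarith
  have h0 : (0 : ℝ) ≤ 1 / R := by positivity
  linarith

lemma sum_inv (R : ℕ) : ∑ q ∈ Icc 11 R, (1 : ℝ) / (q : ℝ) ≤ 2 * Real.sqrt R := by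
  rcases Nat.lt_or_ge R 10 with h | h
  · rw [Icc_eq_empty (by omega)]; simp
  induction R, h using Nat.le_induction with
  | base => rw [Icc_eq_empty (by omega)]; simp
  | succ R hR ih =>
    rw [sum_Icc_succ_top (by omega)]
    have hR0 : (0 : ℝ) < R := by exact_mod_cast (by omega : 0 < R)
    set a := Real.sqrt R with ha
    set b := Real.sqrt ((R + 1 : ℕ) : ℝ) with hb
    have ha2 : a ^ 2 = R := Real.sq_sqrt hR0.le
    have hb2 : b ^ 2 = R + 1 := by rw [hb, Real.sq_sqrt (by positivity)]; push_cast; ring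
    have hab : a ≤ b := Real.sqrt_le_sqrt (by push_cast; linarith)
    have ha0 : 0 ≤ a := Real.sqrt_nonneg _
    have hb1 : 1 ≤ b := by
      rw [hb]; apply Real.one_le_sqrt.2; push_cast; linarith
    have h1 : (1 : ℝ) / ((R + 1 : ℕ) : ℝ) ≤ 2 * b - 2 * a := by
      have h2 : ((R + 1 : ℕ) : ℝ) = b ^ 2 := by rw [hb2]; push_cast; ring
      rw [h2, div_le_iff₀ (by positivity)]
      have h3 : (b - a) * (b + a) = 1 := by nlinarith
      have h4 : (b - a) * (2 * b) ≥ 1 := by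
        have : (b - a) * (b + a) ≤ (b - a) * (2 * b) := by
          apply mul_le_mul_of_nonneg_left <;> linarith
        linarith
      have h5 : 0 ≤ b - a := by linarith
      nlinarith [mul_nonneg h5 (by linarith : 0 ≤ b)]
    linarith

lemma badI2 (n p B C : ℕ) (hp : p.Prime) (hp11 : 11 ≤ p) :
    ((range B ×ˢ range C).filter (fun x : ℕ × ℕ => (p : ℤ) ∣ 2 * (vv x.2 : ℤ) + uu x.1 ∧
      (p : ℤ) ∣ (n : ℤ) + 2 * uu x.1 * vv x.2)).card ≤ (C / p + 1) * (2 * (B / p + 1)) := by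
  have hp' : Prime (p : ℤ) := Nat.prime_iff_prime_int.1 hp
  refine (card_le_mul_card_image (f := fun x : ℕ × ℕ => x.1) _ (C / p + 1) ?_).trans
    (Nat.mul_le_mul_left _ ?_)
  · intro b _
    have hcop : IsCoprime (p : ℤ) 4 := by
      rw [hp'.irreducible.coprime_iff_not_dvd]
      intro h
      have : p ∣ 4 := by exact_mod_cast h
      have := Nat.le_of_dvd (by norm_num) this
      omega
    refine le_trans ?_ (card_lin C p hp.pos 4 (2 + uu b) hcop)
    refine card_le_card_of_injOn (fun x => x.2) ?_ ?_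
    · intro x hx
      simp only [coe_filter, mem_filter, mem_product, mem_range, Set.mem_ofPred_eq] at hx ⊢
      obtain ⟨⟨⟨h1, h2⟩, h3, h4⟩, h5⟩ := hx
      refine ⟨h2, ?_⟩
      rw [h5] at h3
      have : 4 * (x.2 : ℤ) + (2 + uu b) = 2 * (vv x.2 : ℤ) + uu b := by unfold vv; push_cast; ring
      rw [this]; exact h3
    · intro x hx y hy hxy
      simp only [coe_filter, mem_filter, mem_product, mem_range, Set.mem_ofPred_eq] at hx hy
      exact Prod.ext (hx.2.trans hy.2.symm) hxy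
  · refine le_trans (card_le_card ?_) (badI n p B hp hp11)
    intro b hb
    obtain ⟨x, hx, rfl⟩ := mem_image.1 hb
    simp only [mem_filter, mem_product, mem_range] at hx ⊢
    obtain ⟨⟨h1, h2⟩, h3, h4⟩ := hx
    refine ⟨h1, ?_⟩
    have : (n : ℤ) - (uu x.1 : ℤ) ^ 2 = ((n : ℤ) + 2 * uu x.1 * vv x.2) -
      uu x.1 * (2 * (vv x.2 : ℤ) + uu x.1) := by ring
    rw [this]
    exact dvd_sub h4 (h3.mul_left _)

lemma badII2 (n p B C : ℕ) (hp : p.Prime) (hp11 : 11 ≤ p) (hpn : ¬ (p : ℤ) ∣ n) :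
    ((range B ×ˢ range C).filter (fun x : ℕ × ℕ => ((p ^ 2 : ℕ) : ℤ) ∣
      (EE n (uu x.1) (vv x.2) : ℤ))).card ≤ (2 * (C / p ^ 2 + 1)) * B := by
  refine (card_le_mul_card_image (f := fun x : ℕ × ℕ => x.1) _ (2 * (C / p ^ 2 + 1)) ?_).trans
    (Nat.mul_le_mul_left _ ?_)
  · intro b _
    refine le_trans ?_ (badII n p b C hp hp11 hpn)
    refine card_le_card_of_injOn (fun x => x.2) ?_ ?_
    · intro x hx
      simp only [coe_filter, mem_filter, mem_product, mem_range, Set.mem_ofPred_eq] at hx ⊢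
      obtain ⟨⟨⟨h1, h2⟩, h3⟩, h5⟩ := hx
      refine ⟨h2, ?_⟩
      rw [h5] at h3
      exact h3
    · intro x hx y hy hxy
      simp only [coe_filter, mem_filter, mem_product, mem_range, Set.mem_ofPred_eq] at hx hy
      exact Prod.ext (hx.2.trans hy.2.symm) hxy
  · refine le_trans (card_le_card (t := range B) ?_) (card_range B).le
    intro b hb
    obtain ⟨x, hx, rfl⟩ := mem_image.1 hb
    simp only [mem_filter, mem_product, mem_range] at hx ⊢
    exact hx.1.1

/-- the conditions at the primes from `11` on -/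
def PP (R Y n : ℕ) (x : ℕ × ℕ) : Prop :=
  (∀ p : ℕ, p.Prime → 11 ≤ p → p ≤ R → ¬ ((p : ℤ) ∣ 2 * (vv x.2 : ℤ) + uu x.1 ∧
      (p : ℤ) ∣ (n : ℤ) + 2 * uu x.1 * vv x.2)) ∧
  (∀ p : ℕ, p.Prime → 11 ≤ p → p ≤ Y → ¬ ((p ^ 2 : ℕ) : ℤ) ∣ (EE n (uu x.1) (vv x.2) : ℤ))

open Classical in
theorem sieve (R n Y : ℕ) (hR : 10 ^ 13 ≤ R) (hY : Y ^ 2 ≤ R) (hn : n.Prime) (hnR : R < n) :
    (R : ℝ) ^ 2 / 53760 ≤ (((range (R / 840) ×ˢ range (R / 8)).filter (PP R Y n)).card : ℝ) := by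
  set B := R / 840 with hB
  set C := R / 8 with hC
  have hYR : Y ≤ R := by nlinarith
  have hpn : ∀ p : ℕ, p.Prime → p ≤ R → ¬ (p : ℤ) ∣ n := by
    intro p hp hpR h
    have h1 : p ∣ n := by exact_mod_cast h
    have h2 : p = n := (Nat.prime_dvd_prime_iff_eq hp hn).1 h1
    omega
  set SI : ℕ → Finset (ℕ × ℕ) := fun p => (range B ×ˢ range C).filter (fun x : ℕ × ℕ =>
    (p : ℤ) ∣ 2 * (vv x.2 : ℤ) + uu x.1 ∧ (p : ℤ) ∣ (n : ℤ) + 2 * uu x.1 * vv x.2) with hSI
  set SII : ℕ → Finset (ℕ × ℕ) := fun p => (range B ×ˢ range C).filter (fun x : ℕ × ℕ =>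
    ((p ^ 2 : ℕ) : ℤ) ∣ (EE n (uu x.1) (vv x.2) : ℤ)) with hSII
  have hcov : range B ×ˢ range C ⊆ ((range B ×ˢ range C).filter (PP R Y n)) ∪
      (((Icc 11 R).filter Nat.Prime).biUnion SI ∪ ((Icc 11 Y).filter Nat.Prime).biUnion SII) := by
    intro x hx
    by_cases h : PP R Y n x
    · exact mem_union_left _ (mem_filter.2 ⟨hx, h⟩)
    · apply mem_union_right
      unfold PP at h
      rw [not_and_or] at h
      rcases h with h | h
      · apply mem_union_left
        push Not at h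
        obtain ⟨p, hp, h1, h2, h3, h4⟩ := h
        exact mem_biUnion.2 ⟨p, mem_filter.2 ⟨mem_Icc.2 ⟨h1, h2⟩, hp⟩, mem_filter.2 ⟨hx, h3, h4⟩⟩
      · apply mem_union_right
        push Not at h
        obtain ⟨p, hp, h1, h2, h3⟩ := h
        exact mem_biUnion.2 ⟨p, mem_filter.2 ⟨mem_Icc.2 ⟨h1, h2⟩, hp⟩, mem_filter.2 ⟨hx, h3⟩⟩
  have hcard : (B : ℝ) * C ≤ (((range B ×ˢ range C).filter (PP R Y n)).card : ℝ) +
      ((∑ p ∈ (Icc 11 R).filter Nat.Prime, ((SI p).card : ℝ)) +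
        ∑ p ∈ (Icc 11 Y).filter Nat.Prime, ((SII p).card : ℝ)) := by
    have h1 := card_le_card hcov
    rw [card_product, card_range, card_range] at h1
    have h2 := h1.trans ((card_union_le _ _).trans (Nat.add_le_add_left ((card_union_le _ _).trans
      (Nat.add_le_add card_biUnion_le card_biUnion_le)) _))
    exact_mod_cast h2
  have hB0 : (0 : ℝ) ≤ B := Nat.cast_nonneg _
  have hC0 : (0 : ℝ) ≤ C := Nat.cast_nonneg _
  have hI : ∑ p ∈ (Icc 11 R).filter Nat.Prime, ((SI p).card : ℝ) ≤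
      2 * B * C * (1 / 10) + 2 * (B + C) * (2 * Real.sqrt R) + 2 * R := by
    calc ∑ p ∈ (Icc 11 R).filter Nat.Prime, ((SI p).card : ℝ)
        ≤ ∑ p ∈ (Icc 11 R).filter Nat.Prime, (2 * B * C * (1 / (p : ℝ) ^ 2) +
            2 * (B + C) * (1 / (p : ℝ)) + 2) := by
          apply sum_le_sum
          intro p hp
          rw [mem_filter, mem_Icc] at hp
          have h1 : (SI p).card ≤ (C / p + 1) * (2 * (B / p + 1)) := badI2 n p B C hp.2 hp.1.1
          have h2 : ((SI p).card : ℝ) ≤ (((C / p : ℕ) : ℝ) + 1) * (2 * (((B / p : ℕ) : ℝ) + 1)) := by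
            exact_mod_cast h1
          have hp0 : (0 : ℝ) < p := by exact_mod_cast hp.2.pos
          have h3 : ((C / p : ℕ) : ℝ) ≤ C / p := Nat.cast_div_le
          have h4 : ((B / p : ℕ) : ℝ) ≤ B / p := Nat.cast_div_le
          calc ((SI p).card : ℝ) ≤ (((C / p : ℕ) : ℝ) + 1) * (2 * (((B / p : ℕ) : ℝ) + 1)) := h2
            _ ≤ ((C : ℝ) / p + 1) * (2 * ((B : ℝ) / p + 1)) := by gcongr
            _ = _ := by field_simp; ring
      _ ≤ ∑ p ∈ Icc 11 R, (2 * B * C * (1 / (p : ℝ) ^ 2) + 2 * (B + C) * (1 / (p : ℝ)) + 2) := by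
          apply sum_le_sum_of_subset_of_nonneg (filter_subset _ _)
          intros; positivity
      _ = 2 * B * C * (∑ p ∈ Icc 11 R, 1 / (p : ℝ) ^ 2) +
            2 * (B + C) * (∑ p ∈ Icc 11 R, 1 / (p : ℝ)) + ((Icc 11 R).card : ℝ) * 2 := by
          rw [sum_add_distrib, sum_add_distrib, ← mul_sum, ← mul_sum, sum_const, nsmul_eq_mul]
      _ ≤ _ := by
          have h1 := sum_sq_inv R
          have h2 := sum_inv R
          have h3 : ((Icc 11 R).card : ℝ) ≤ R := by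
            rw [Nat.card_Icc]; exact_mod_cast (by omega : R + 1 - 11 ≤ R)
          have h4 : 2 * (B : ℝ) * C * (∑ p ∈ Icc 11 R, 1 / (p : ℝ) ^ 2) ≤ 2 * B * C * (1 / 10) :=
            mul_le_mul_of_nonneg_left h1 (by positivity)
          have h5 : 2 * ((B : ℝ) + C) * (∑ p ∈ Icc 11 R, 1 / (p : ℝ)) ≤
              2 * (B + C) * (2 * Real.sqrt R) :=
            mul_le_mul_of_nonneg_left h2 (by positivity)
          linarith
  have hII : ∑ p ∈ (Icc 11 Y).filter Nat.Prime, ((SII p).card : ℝ) ≤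
      2 * B * C * (1 / 10) + 2 * B * Y := by
    calc ∑ p ∈ (Icc 11 Y).filter Nat.Prime, ((SII p).card : ℝ)
        ≤ ∑ p ∈ (Icc 11 Y).filter Nat.Prime, (2 * B * C * (1 / (p : ℝ) ^ 2) + 2 * B) := by
          apply sum_le_sum
          intro p hp
          rw [mem_filter, mem_Icc] at hp
          have h1 : (SII p).card ≤ (2 * (C / p ^ 2 + 1)) * B :=
            badII2 n p B C hp.2 hp.1.1 (hpn p hp.2 (hp.1.2.trans hYR))
          have h2 : ((SII p).card : ℝ) ≤ (2 * (((C / p ^ 2 : ℕ) : ℝ) + 1)) * B := by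
            exact_mod_cast h1
          have hp0 : (0 : ℝ) < p := by exact_mod_cast hp.2.pos
          have h3 : ((C / p ^ 2 : ℕ) : ℝ) ≤ C / (p : ℝ) ^ 2 := by
            have := Nat.cast_div_le (α := ℝ) (m := C) (n := p ^ 2)
            rwa [Nat.cast_pow] at this
          calc ((SII p).card : ℝ) ≤ (2 * (((C / p ^ 2 : ℕ) : ℝ) + 1)) * B := h2
            _ ≤ (2 * ((C : ℝ) / (p : ℝ) ^ 2 + 1)) * B := by gcongr
            _ = _ := by field_simp
      _ ≤ ∑ p ∈ Icc 11 Y, (2 * B * C * (1 / (p : ℝ) ^ 2) + 2 * B) := by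
          apply sum_le_sum_of_subset_of_nonneg (filter_subset _ _)
          intros; positivity
      _ = 2 * B * C * (∑ p ∈ Icc 11 Y, 1 / (p : ℝ) ^ 2) + ((Icc 11 Y).card : ℝ) * (2 * B) := by
          rw [sum_add_distrib, ← mul_sum, sum_const, nsmul_eq_mul]
      _ ≤ _ := by
          have h1 := sum_sq_inv Y
          have h3 : ((Icc 11 Y).card : ℝ) ≤ Y := by
            rw [Nat.card_Icc]; exact_mod_cast (by omega : Y + 1 - 11 ≤ Y)
          have h4 : 2 * (B : ℝ) * C * (∑ p ∈ Icc 11 Y, 1 / (p : ℝ) ^ 2) ≤ 2 * B * C * (1 / 10) :=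
            mul_le_mul_of_nonneg_left h1 (by positivity)
          have h5 : ((Icc 11 Y).card : ℝ) * (2 * B) ≤ Y * (2 * B) :=
            mul_le_mul_of_nonneg_right h3 (by positivity)
          linarith
  -- sizes
  have hRr : (10 : ℝ) ^ 13 ≤ R := by exact_mod_cast hR
  have hB1 : (B : ℝ) ≤ R / 840 := by rw [hB]; exact Nat.cast_div_le
  have hC1 : (C : ℝ) ≤ R / 8 := by rw [hC]; exact Nat.cast_div_le
  have hB2 : (R : ℝ) / 1680 ≤ B := by
    have h1 : R < 840 * (B + 1) := by omega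
    have h2 : (R : ℝ) < 840 * (B + 1) := by exact_mod_cast h1
    have h3 : (1680 : ℝ) ≤ R := le_trans (by norm_num) hRr
    linarith
  have hC2 : (R : ℝ) / 16 ≤ C := by
    have h1 : R < 8 * (C + 1) := by omega
    have h2 : (R : ℝ) < 8 * (C + 1) := by exact_mod_cast h1
    have h3 : (16 : ℝ) ≤ R := le_trans (by norm_num) hRr
    linarith
  set s := Real.sqrt R with hs
  have hs2 : s ^ 2 = R := Real.sq_sqrt (by linarith)
  have hs0 : 0 ≤ s := Real.sqrt_nonneg _
  have hs1 : (3000000 : ℝ) ≤ s := by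
    apply Real.le_sqrt_of_sq_le
    refine le_trans ?_ hRr
    norm_num
  have hYs : (Y : ℝ) ≤ s := by
    apply Real.le_sqrt_of_sq_le
    exact_mod_cast hY
  have hBC : (R : ℝ) ^ 2 / 26880 ≤ B * C := by
    calc (R : ℝ) ^ 2 / 26880 = (R / 1680) * (R / 16) := by ring
      _ ≤ B * C := by gcongr
  -- the error
  have herr : 2 * ((B : ℝ) + C) * (2 * s) + 2 * R + 2 * B * Y ≤ B * C / 10 := by
    have h1 : 2 * ((B : ℝ) + C) * (2 * s) ≤ 2 * R * s := by
      have : (B : ℝ) + C ≤ R / 2 := by linarith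
      nlinarith
    have h2 : 2 * (B : ℝ) * Y ≤ R * s := by
      have : 2 * (B : ℝ) ≤ R := by linarith
      exact mul_le_mul this hYs (Nat.cast_nonneg _) (by linarith)
    have h3 : (2 : ℝ) * R ≤ R * s := by nlinarith
    have h4 : (4 : ℝ) * (R * s) ≤ R ^ 2 / 268800 := by
      have h5 : (R : ℝ) ^ 2 = R * s * s := by rw [mul_assoc, ← sq, hs2]; ring
      rw [h5]
      have h6 : 0 ≤ R * s := by positivity
      nlinarith
    linarith
  nlinarith

end Pool.Agent.H82.CR
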