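import Pool.Agent.H82.CR.N1
import Pool.Agent.H82.CR.S2

set_option autoImplicit false

/-! # Good triples from the sieve -/

namespace Pool.Agent.H82.CR

open Finset

lemma uu_size {R b : ℕ} (hb : b < R / 840) : 4 * uu b + 420 ≤ R := by
  unfold uu; omega

lemma vv_size {R c : ℕ} (hc : c < R / 8) : 4 * vv c + 4 ≤ R := by
  unfold vv; omega

lemma uu_odd (b : ℕ) : Odd (uu b) := by
  unfold uu; exact ⟨105 * b + 52, by ring⟩

lemma vv_odd (c : ℕ) : Odd (vv c) := ⟨c, rfl⟩

lemma uv_le {R b c : ℕ} (hb : b < R / 840) (hc : c < R / 8) : 16 * (uu b * vv c) ≤ R ^ 2 := by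
  have h1 := uu_size hb
  have h2 := vv_size hc
  calc 16 * (uu b * vv c) = (4 * uu b) * (4 * vv c) := by ring
    _ ≤ R * R := Nat.mul_le_mul (by omega) (by omega)
    _ = R ^ 2 := by ring

theorem good_of {R n Y b c : ℕ} (hR : 10 ^ 13 ≤ R) (hn : n.Prime) (hRn : R ^ 2 ≤ n)
    (hb : b < R / 840) (hc : c < R / 8) (hP : PP R Y n (b, c))
    (hL : ∀ q : ℕ, q.Prime → Y < q → ¬ q ^ 2 ∣ EE n (uu b) (vv c)) : Good n (uu b) (vv c) := by
  have su := uu_size hb
  have sv := vv_size hc
  have ou := uu_odd b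
  have ov := vv_odd c
  have suv := uv_le hb hc
  have hu0 : 0 < uu b := ou.pos
  have hv0 : 0 < vv c := ov.pos
  have hRltn : R < n := by nlinarith
  have on : Odd n := hn.odd_of_ne_two (by omega)
  have hn' : Prime (n : ℤ) := Nat.prime_iff_prime_int.1 hn
  obtain ⟨hP1, hP2⟩ := hP
  have hpn : ∀ p : ℕ, p.Prime → p ≤ R → ¬ p ∣ n := by
    intro p hp hpR h
    have h2 : p = n := (Nat.prime_dvd_prime_iff_eq hp hn).1 h
    omega
  have h105 : ∀ p : ℕ, p.Prime → p < 11 → p ≠ 2 → p ∣ uu b := by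
    intro p hp hp11 hp2
    have h1 : p ∣ 105 := by
      have := hp.two_le
      interval_cases p
      · exact absurd rfl hp2
      · norm_num
      · exact absurd hp (by norm_num)
      · norm_num
      · exact absurd hp (by norm_num)
      · norm_num
      · exact absurd hp (by norm_num)
      · exact absurd hp (by norm_num)
      · exact absurd hp (by norm_num)
    exact h1.trans ⟨2 * b + 1, rfl⟩
  refine ⟨on, ou, ov, hn.one_lt, by nlinarith, ?_, ?_, ?_, ?_, ?_⟩
  · -- size of z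
    have h1 : (4 * (uu b : ℤ) + 420) ≤ R := by exact_mod_cast su
    have h2 : (4 * (vv c : ℤ) + 4) ≤ R := by exact_mod_cast sv
    have h3 : (R : ℤ) ^ 2 ≤ n := by exact_mod_cast hRn
    have h4 : (0 : ℤ) < uu b := by exact_mod_cast hu0
    have h5 : (0 : ℤ) < vv c := by exact_mod_cast hv0
    have h6 : (0 : ℤ) < n := by exact_mod_cast hn.pos
    have h7 : (2 * (2 * (vv c : ℤ) - uu b)) ^ 2 ≤ (R : ℤ) ^ 2 := by
      apply sq_le_sq'
      · linarith
      · linarith
    nlinarith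
  · rw [hn'.irreducible.coprime_iff_not_dvd]
    intro h
    have h1 : n ∣ 2 * uu b * vv c := by exact_mod_cast h
    rcases hn.dvd_mul.1 h1 with h2 | h2
    · rcases hn.dvd_mul.1 h2 with h3 | h3
      · have := Nat.le_of_dvd (by norm_num) h3; omega
      · have := Nat.le_of_dvd hu0 h3; omega
    · have := Nat.le_of_dvd hv0 h2; omega
  · rw [hn'.irreducible.coprime_iff_not_dvd]
    intro h
    have h1 : (2 * (vv c : ℤ) - uu b) = 0 := by
      apply Int.eq_zero_of_abs_lt_dvd h
      rw [abs_lt]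
      have h1 : (4 * (uu b : ℤ) + 420) ≤ R := by exact_mod_cast su
      have h2 : (4 * (vv c : ℤ) + 4) ≤ R := by exact_mod_cast sv
      have h3 : (R : ℤ) < n := by exact_mod_cast hRltn
      constructor <;> linarith
    obtain ⟨k, hk⟩ := ou
    omega
  · apply coprime_of_prime
    intro p hp h1 h2
    have h3 : p ∣ 2 * vv c + uu b := by exact_mod_cast h2
    have h4 : p ∣ n + 2 * uu b * vv c := by exact_mod_cast h1
    rcases Nat.lt_or_ge p 11 with h11 | h11
    · have hp2 : p ≠ 2 := by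
        rintro rfl
        obtain ⟨k, hk⟩ := ou
        omega
      have h5 := h105 p hp h11 hp2
      have h6 : p ∣ n := by
        rw [mul_assoc, mul_left_comm] at h4
        exact (Nat.dvd_add_left (h5.mul_right _)).1 h4
      exact hpn p hp (by omega) h6
    · have h5 : p ≤ R := by
        have := Nat.le_of_dvd (by omega) h3
        omega
      exact hP1 p hp h11 h5 ⟨h2, h1⟩
  · rw [Nat.squarefree_iff_prime_squarefree]
    intro p hp h
    have h' : p ∣ EE n (uu b) (vv c) := (dvd_mul_right p p).trans h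
    rcases Nat.lt_or_ge p 11 with h11 | h11
    · have hE4 := EE_mod on ou ov
      have hp2 : p ≠ 2 := by
        rintro rfl
        omega
      have h5 := h105 p hp h11 hp2
      have hpn' := hpn p hp (by omega)
      by_cases hp3 : p = 3
      · subst hp3
        obtain ⟨k, hk⟩ := h5
        apply hpn'
        have e : EE n (uu b) (vv c) = 3 * n ^ 2 + 9 * (2 * n * k * vv c + 4 * (k * vv c) ^ 2) := by
          unfold EE; rw [hk]; ring
        rw [e] at h
        have h6 : 3 * 3 ∣ 3 * n ^ 2 := (Nat.dvd_add_left ⟨_, rfl⟩).1 h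
        have h7 : 3 ∣ n ^ 2 := Nat.dvd_of_mul_dvd_mul_left (by norm_num) h6
        exact hp.dvd_of_dvd_pow h7
      · apply hpn'
        obtain ⟨k, hk⟩ := h5
        have e : EE n (uu b) (vv c) = 3 * n ^ 2 + p * (6 * n * k * vv c + 4 * k * vv c * (p * k * vv c)) := by
          unfold EE; rw [hk]; ring
        rw [e] at h'
        have h6 : p ∣ 3 * n ^ 2 := (Nat.dvd_add_left ⟨_, rfl⟩).1 h'
        rcases hp.dvd_mul.1 h6 with h7 | h7
        · exact absurd ((Nat.prime_dvd_prime_iff_eq hp Nat.prime_three).1 h7) hp3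
        · exact hp.dvd_of_dvd_pow h7
    · rcases Nat.lt_or_ge Y p with hY | hY
      · apply hL p hp hY
        rw [sq]; exact h
      · apply hP2 p hp h11 hY
        rw [sq]; exact_mod_cast h

lemma sum_sq_inv2 {Y : ℕ} (hY : 0 < Y) (T : ℕ) :
    ∑ q ∈ Ioc Y T, (1 : ℝ) / (q : ℝ) ^ 2 ≤ 1 / Y := by
  have hY0 : (0 : ℝ) < Y := by exact_mod_cast hY
  rcases Nat.lt_or_ge T Y with h | h
  · rw [Ioc_eq_empty (by omega)]; simp
  have key : ∑ q ∈ Ioc Y T, (1 : ℝ) / (q : ℝ) ^ 2 ≤ 1 / Y - 1 / T := by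
    induction T, h using Nat.le_induction with
    | base => simp
    | succ R hR ih =>
      rw [← Finset.insert_Ioc_right_eq_Ioc_add_one (by omega), sum_insert (by simp)]
      have hR0 : (0 : ℝ) < R := by exact_mod_cast (by omega : 0 < R)
      have h1 : (1 : ℝ) / ((R + 1 : ℕ) : ℝ) ^ 2 ≤ 1 / R - 1 / ((R + 1 : ℕ) : ℝ) := by
        push_cast
        rw [div_sub_div _ _ hR0.ne' (by positivity), div_le_div_iff₀ (by positivity) (by positivity)]
        nlinarith
      linarith
  have h0 : (0 : ℝ) ≤ 1 / T := by positivity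
  linarith

/-- numbers with a large square divisor -/
lemma large_sq (T Y : ℕ) (hY : 0 < Y) (U : Finset ℕ)
    (hU : ∀ t ∈ U, 0 < t ∧ t ≤ T ∧ ∃ q, Y < q ∧ q ^ 2 ∣ t) : (U.card : ℝ) ≤ T / Y := by
  have h1 : U ⊆ (Ioc Y T).biUnion (fun q => (Icc 1 (T / q ^ 2)).image (fun k => q ^ 2 * k)) := by
    intro t ht
    obtain ⟨h1, h2, q, h3, k, hk⟩ := hU t ht
    have hk0 : 0 < k := by
      rcases Nat.eq_zero_or_pos k with h | h
      · rw [h] at hk; omega
      · exact h
    have hq0 : 0 < q := by omega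
    have hqt : q ≤ T := by nlinarith
    refine mem_biUnion.2 ⟨q, mem_Ioc.2 ⟨h3, hqt⟩, mem_image.2 ⟨k, mem_Icc.2 ⟨hk0, ?_⟩, hk.symm⟩⟩
    rw [Nat.le_div_iff_mul_le (by positivity), mul_comm, ← hk]; exact h2
  have h2 := (card_le_card h1).trans card_biUnion_le
  have h3 : (U.card : ℝ) ≤ ∑ q ∈ Ioc Y T, (((Icc 1 (T / q ^ 2)).image (fun k => q ^ 2 * k)).card : ℝ) := by
    exact_mod_cast h2
  calc (U.card : ℝ) ≤ _ := h3
    _ ≤ ∑ q ∈ Ioc Y T, (T : ℝ) * (1 / (q : ℝ) ^ 2) := by
        apply sum_le_sum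
        intro q hq
        have h4 : (((Icc 1 (T / q ^ 2)).image (fun k => q ^ 2 * k)).card) ≤ T / q ^ 2 := by
          refine card_image_le.trans ?_
          rw [Nat.card_Icc, Nat.add_sub_cancel]
        have h5 : ((T / q ^ 2 : ℕ) : ℝ) ≤ (T : ℝ) / (q : ℝ) ^ 2 := by
          have := Nat.cast_div_le (α := ℝ) (m := T) (n := q ^ 2)
          rwa [Nat.cast_pow] at this
        rw [mul_one_div]
        refine le_trans ?_ h5
        exact_mod_cast h4
    _ = T * ∑ q ∈ Ioc Y T, (1 / (q : ℝ) ^ 2) := by rw [mul_sum]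
    _ ≤ T * (1 / Y) := mul_le_mul_of_nonneg_left (sum_sq_inv2 hY T) (Nat.cast_nonneg _)
    _ = T / Y := by ring

end Pool.Agent.H82.CR
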